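import Pool.Agent.Run7.h439.DC.Dig2

set_option autoImplicit false

/-!
# The average height in classes of odd integers defined by digits

A class consists of the odd integers whose values of given strongly additive digit functions (for example
sums of digits), in pairwise coprime odd bases, lie in given residue classes. In every class the average
order of the height is at least the conjectured one, and it is finite along a sequence of cut-offs (in the
sense `O(log X)`) only if all heights are finite; the truncated average order is the expected one in every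
class, the limit law holds, and every bounded function of the height has its proportional share in the
class with a power saving error term which is uniform in the function and the class.

Method: a dispersion argument. For `m > 2 ^ t` the number of odd terms of the trajectory of `m` before `1`
is a function of `T^t(m)` and the number of odd terms before it; for a given number of odd terms the
integers `m ≤ N` with the same `T^t(m)` lie in a short interval and are determined by their residue modulo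
`2 ^ t`, and the correlations of the multiplicative digit functions along the progressions modulo `2 ^ t`
are products over the bases.
-/

namespace Pool.Agent.Results.MP_2b866c_nt.DigitClassesHeights

open Filter Topology

/-- `C(m) = (3m+1)/2^e(m)`, `2^e(m)` the largest power of `2` dividing `3m+1` -/
def C (m : ℕ) : ℕ := (3 * m + 1) / 2 ^ padicValNat 2 (3 * m + 1)

/-- the height `h(m)`, the least `k ≥ 1` with `C^k(m) = 1`, and `⊤ = ∞` if there is none -/
noncomputable def height (m : ℕ) : ℕ∞ := sInf {k : ℕ∞ | ∃ j : ℕ, 1 ≤ j ∧ C^[j] m = 1 ∧ k = j}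

/-- the height truncated at `t`, that is `min (h(m), t)` -/
noncomputable def truncated (t : ℝ) (m : ℕ) : ℝ := if height m = ⊤ then t else min ((height m).toNat : ℝ) t

/-- `W` is strongly `q`-additive: `W(n)` is the sum of the values of `W` at the digits of `n` in base `q`. -/
def StronglyAdditive (q : ℕ) (W : ℕ → ℤ) : Prop := ∀ n r : ℕ, r < q → W (q * n + r) = W n + W r

/-- There is no prime `p ∣ m` such that `W(r) ≡ r W(1)` modulo `p` for all `r ≤ q`. For the sum of the
digits in base `q` this says that `m` is coprime to `q - 1`. -/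
def Unobstructed (q : ℕ) (W : ℕ → ℤ) (m : ℕ) : Prop :=
  ∀ p : ℕ, p.Prime → p ∣ m → ∃ r : ℕ, r ≤ q ∧ ¬ W r ≡ r * W 1 [ZMOD p]

/-- The data: pairwise coprime odd bases `q i ≥ 3`, strongly `q i`-additive functions `W i` with integer
values, and moduli `m i ≥ 1` without obstruction. -/
structure Data {l : ℕ} (q m : Fin l → ℕ) (W : Fin l → ℕ → ℤ) : Prop where
  odd : ∀ i, 3 ≤ q i ∧ q i % 2 = 1
  coprime : ∀ i j, i ≠ j → Nat.Coprime (q i) (q j)
  additive : ∀ i, StronglyAdditive (q i) (W i)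
  pos : ∀ i, 1 ≤ m i
  free : ∀ i, Unobstructed (q i) (W i) (m i)

/-- the class: the odd positive integers `n` with `W i (n) ≡ a i` modulo `m i` for all `i` -/
def InClass {l : ℕ} (m : Fin l → ℕ) (W : Fin l → ℕ → ℤ) (a : Fin l → ℤ) (n : ℕ) : Prop :=
  n % 2 = 1 ∧ ∀ i, W i n ≡ a i [ZMOD m i]

/-- `2 / X` times the number of the odd `n ≤ X` with the property `P` tends to `d`. -/
def HasOddDensity (P : ℕ → Prop) (d : ℝ) : Prop :=
  Tendsto (fun X : ℕ => 2 / (X : ℝ) * ({n : ℕ | n ≤ X ∧ n % 2 = 1 ∧ P n}.ncard : ℝ)) atTop (𝓝 d)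

/-- `2 / log (16/9) * log m + x * log 2 * √(2 log m / (log (4/3))^3)` -/
noncomputable def bound (x : ℝ) (m : ℕ) : ℝ :=
  2 / Real.log (16 / 9) * Real.log m
    + x * (Real.log 2 * Real.sqrt (2 * Real.log m / Real.log (4 / 3) ^ 3))

/-- The distribution function of the standard normal law. -/
noncomputable def Phi (x : ℝ) : ℝ :=
  ProbabilityTheory.cdf (ProbabilityTheory.gaussianReal 0 1) x

/-- `m` has a finite height, which is at most `bound x m` and congruent to `b` modulo `r`. -/
def Level (r : ℕ) (b : ℤ) (x : ℝ) (m : ℕ) : Prop :=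
  ∃ h : ℕ, height m = h ∧ (h : ℝ) ≤ bound x m ∧ (h : ℤ) ≡ b [ZMOD r]

open Pool.Agent.H499R2.ND in
theorem height_eq {m h : ℕ} (hh : IsHt m h) : height m = h := by
  unfold height
  apply le_antisymm
  · exact sInf_le ⟨h, hh.1, hh.2.1, rfl⟩
  · refine le_sInf ?_
    rintro k ⟨j, hj, hj1, rfl⟩
    have : h ≤ j := by
      by_contra hlt
      exact hh.2.2 j hj (by omega) hj1
    exact_mod_cast this

open Pool.Agent.H499R2.ND in
theorem exists_isHt {m j : ℕ} (hj : 1 ≤ j) (h : C^[j] m = 1) : ∃ h, IsHt m h := by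
  classical
  have hex : ∃ k, 1 ≤ k ∧ C^[k] m = 1 := ⟨j, hj, h⟩
  refine ⟨Nat.find hex, (Nat.find_spec hex).1, (Nat.find_spec hex).2, fun k hk hlt hk1 => ?_⟩
  exact Nat.find_min hex hlt ⟨hk, hk1⟩

open Pool.Agent.H499R2.ND in
theorem height_top {m : ℕ} (hh : ¬ ∃ h, IsHt m h) : height m = ⊤ := by
  unfold height
  have : {k : ℕ∞ | ∃ j : ℕ, 1 ≤ j ∧ C^[j] m = 1 ∧ k = j} = ∅ := by
    rw [Set.eq_empty_iff_forall_notMem]
    rintro k ⟨j, hj, hj1, _⟩
    exact hh (exists_isHt hj hj1)
  rw [this, sInf_empty]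

open Pool.Agent.H499R2.ND in
theorem height_lt_top_iff {m : ℕ} : height m ≠ ⊤ ↔ ∃ h, IsHt m h := by
  constructor
  · intro h
    by_contra hcon
    exact h (height_top hcon)
  · rintro ⟨h, hh⟩
    rw [height_eq hh]
    exact ENat.natCast_ne_top h

open Pool.Agent.H499R2.ND in
theorem height_iff {m h : ℕ} : height m = h ↔ IsHt m h := by
  constructor
  · intro hm
    obtain ⟨h', hh'⟩ := height_lt_top_iff.1 (show height m ≠ ⊤ by rw [hm]; exact ENat.natCast_ne_top h)
    have h1 := height_eq hh'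
    rw [hm] at h1
    have h2 : h = h' := by exact_mod_cast h1
    rw [h2]; exact hh'
  · exact height_eq

theorem bound_eq (x : ℝ) (m : ℕ) : bound x m = Pool.Agent.H499R2.HL.bo x (Real.log m) := by
  unfold bound Pool.Agent.H499R2.HL.bo
  have : Real.log (16 / 9) = 2 * Real.log (4 / 3) := by
    rw [show (16 : ℝ) / 9 = (4 / 3) ^ 2 by norm_num, Real.log_pow]; push_cast; ring
  rw [this]
  have : Real.log (4 / 3) ≠ 0 := (Real.log_pos (by norm_num)).ne'
  congr 2
  field_simp

open Pool.Agent.H499R2.HL Pool.Agent.Y965.PL Pool.Agent.Run7.h439.DC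

theorem level_iff (q : ℕ) (b : ℤ) (x : ℝ) {m : ℕ} (hm : m % 2 = 1) : Level q b x m ↔
    Lv valH (clsH q b) (th (1 / Real.log (4 / 3)) bO x) m := by
  rw [← lev_ht q b x hm]
  unfold Level
  refine exists_congr fun h => ?_
  rw [height_iff, bound_eq]

theorem height_H {m k : ℕ} (hm : m % 2 = 1) (h : H k m) :
    height m = ((max (Pool.Agent.H499R2.LT.odn k m) 1 : ℕ) : ℕ∞) :=
  height_eq ((ht_max hm _).2 ⟨k, h, rfl⟩)

theorem height_not {m : ℕ} (hm : m % 2 = 1) (h : ¬ ∃ k, H k m) : height m = ⊤ :=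
  height_top fun hh => h ((ht_ex hm).1 hh)

theorem along_of {P Q : ℕ → Prop} {d : ℝ} (h : MnS id (ind Q) (d / 2)) (hPQ : ∀ n, n % 2 = 1 ∧ P n ↔ Q n) :
    HasOddDensity P d := by
  classical
  unfold HasOddDensity
  unfold MnS at h
  have h1 := h.const_mul 2
  rw [mul_div_cancel₀ d (by norm_num : (2 : ℝ) ≠ 0)] at h1
  refine h1.congr fun X => ?_
  have e : {n : ℕ | n ≤ X ∧ n % 2 = 1 ∧ P n} = ((Finset.Icc 1 X).filter fun n => Q n : Finset ℕ) := by
    ext n
    simp only [Set.mem_ofPred_eq, Finset.coe_filter, Finset.mem_Icc]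
    constructor
    · rintro ⟨g1, g2, g3⟩
      exact ⟨⟨by omega, g1⟩, (hPQ _).1 ⟨g2, g3⟩⟩
    · rintro ⟨g1, g3⟩
      exact ⟨g1.2, (hPQ _).2 g3⟩
  rw [e, Set.ncard_coe_finset]
  have e2 : ∑ n ∈ Finset.Icc 1 X, ind Q (id n) = (((Finset.Icc 1 X).filter fun n => Q n).card : ℝ) := by
    rw [Finset.card_filter]
    push_cast
    refine Finset.sum_congr rfl fun n _ => ?_
    by_cases hq : Q n
    · rw [if_pos hq]
      exact ind_pos hq
    · rw [if_neg hq]
      exact ind_neg hq
  rw [e2]
  ring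

theorem log_eq : 2 / Real.log (16 / 9) = 1 / Real.log (4 / 3) := by
  have : Real.log (16 / 9) = 2 * Real.log (4 / 3) := by
    rw [show (16 : ℝ) / 9 = (4 / 3) ^ 2 by norm_num, Real.log_pow]; push_cast; ring
  rw [this]
  have : Real.log (4 / 3) ≠ 0 := (Real.log_pos (by norm_num)).ne'
  field_simp

/-- HEIGHTS IN DIGIT CLASSES. Let `δ > 0` be the natural density, among the odd positive integers, of those
of finite height (`δ = 1` iff all heights are finite). For all data `q, m, W` there are `K` and `c > 0`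
such that for every class `a`, with `ρ = ∏ 1 / m i`:

(1) (Lower bound for the average order.) For every `ε > 0` and all large `X` the sum of `h(m)` over the
`m ≤ X` in the class (a number or `∞`) is at least `(ρ / 2) (2 / log (16/9) - ε) X log X`.

(2) If for some `B` and infinitely many `X` the sum of `h(m)` over the `m ≤ X` in the class is at most
`B X log X`, then all odd positive integers have finite height.

(3) (Truncated average order.) For `Λ > 2 / log (16/9)` the sum of `min (h(m), Λ log X)` over the `m ≤ X`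
in the class, multiplied by `2 / X`, is asymptotically `ρ (δ * 2 / log (16/9) + (1 - δ) Λ) log X`.

(4) (Uniform transfer.) For every function `φ`, bounded by `1`, and all `X ≥ 1` the sum of `φ(h(m))` over
the `m ≤ X` in the class is `ρ` times the sum over all odd `m ≤ X`, up to `K X ^ (1 - c)`.

(5) (Law.) Among the odd integers the `m` of the class with finite height, congruent to `b` modulo `r` and
at most `bound x`, have density `ρ δ Phi(x) / r`. -/
theorem result : ∃ δ : ℝ, 0 < δ ∧ δ ≤ 1 ∧ (δ = 1 ↔ ∀ m : ℕ, Odd m → height m ≠ ⊤) ∧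
    HasOddDensity (fun m => height m ≠ ⊤) δ ∧
    ∀ (l : ℕ) (q m : Fin l → ℕ) (W : Fin l → ℕ → ℤ), Data q m W →
    ∃ K c : ℝ, 0 < c ∧ ∀ a : Fin l → ℤ,
    (∀ ε : ℝ, 0 < ε → ∀ᶠ X : ℕ in atTop,
      ENNReal.ofReal ((∏ i, 1 / (m i : ℝ)) / 2 * (2 / Real.log (16 / 9) - ε) * (X * Real.log X)) ≤
        ((∑ᶠ n ∈ {n : ℕ | n ≤ X ∧ InClass m W a n}, height n : ℕ∞) : ENNReal)) ∧
    (∀ B : ℝ, (∃ᶠ X : ℕ in atTop,
        ((∑ᶠ n ∈ {n : ℕ | n ≤ X ∧ InClass m W a n}, height n : ℕ∞) : ENNReal) ≤
          ENNReal.ofReal (B * (X * Real.log X))) → ∀ n : ℕ, Odd n → height n ≠ ⊤) ∧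
    (∀ Λ : ℝ, 2 / Real.log (16 / 9) < Λ →
      Tendsto (fun X : ℕ => 2 / (X * Real.log X) *
        ∑ᶠ n ∈ {n : ℕ | n ≤ X ∧ InClass m W a n}, truncated (Λ * Real.log X) n)
        atTop (𝓝 ((∏ i, 1 / (m i : ℝ)) * (δ * (2 / Real.log (16 / 9)) + (1 - δ) * Λ)))) ∧
    (∀ φ : ℕ∞ → ℝ, (∀ t, |φ t| ≤ 1) → ∀ X : ℕ, 1 ≤ X →
      |∑ᶠ n ∈ {n : ℕ | n ≤ X ∧ InClass m W a n}, φ (height n) -
        (∏ i, 1 / (m i : ℝ)) * ∑ n ∈ (Finset.Icc 1 X).filter (fun n => n % 2 = 1), φ (height n)| ≤
        K * (X : ℝ) ^ (1 - c)) ∧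
    (∀ (r : ℕ) (b : ℤ) (x : ℝ), 1 ≤ r →
      HasOddDensity (fun n => InClass m W a n ∧ Level r b x n) ((∏ i, 1 / (m i : ℝ)) * (δ * Phi x / r))) := by
  classical
  obtain ⟨δ, hδ, h2, h3⟩ := nat3
  have hν := nu_pos'
  have hone : δ = 1 ↔ ∀ m : ℕ, Odd m → height m ≠ ⊤ := by
    rw [h2]
    refine forall₂_congr fun n _ => ?_
    rw [height_lt_top_iff]
  refine ⟨δ, hδ.pos, hδ.le, hone, ?_, fun l q m W hD => ?_⟩
  · refine along_of (Q := fun n => n % 2 = 1 ∧ ∃ k, H k n) hδ.fin (fun n => and_congr_right fun hn => ?_)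
    rw [height_lt_top_iff, ht_ex hn]
  have hDD : DD 2 q m W := by
    refine ⟨fun i => (hD.odd i).1, fun i => ?_, hD.coprime, hD.additive, hD.pos, hD.free⟩
    rw [Nat.coprime_two_left]
    exact Nat.odd_iff.2 (hD.odd i).2
  obtain ⟨K, c, hK, hc0, _, hT⟩ := cto_digits hDD
  obtain ⟨hρ0, hρ1⟩ := rho01 hD.pos
  set ρ : ℝ := ∏ i, 1 / (m i : ℝ) with hρ
  refine ⟨K, c, hc0, fun a => ?_⟩
  have hA : CTO (Ed m W a) ρ K c := hT a
  obtain ⟨hLaw, hJ⟩ := hA.Law hρ0.le hρ1 hc0 hδ
  have hcl : ∀ n, InClass m W a n ↔ Ed m W a n ∧ n % 2 = 1 := by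
    intro n
    unfold InClass
    rw [and_comm, Ed_iff]
  have hfin : ∀ X : ℕ, {n : ℕ | n ≤ X ∧ InClass m W a n}.Finite := fun X => (Set.finite_Iic X).subset fun n hn => hn.1
  have htoF : ∀ X : ℕ, (hfin X).toFinset = (Finset.Icc 1 X).filter (fun n => Ed m W a n ∧ n % 2 = 1) := by
    intro X
    ext n
    simp only [Set.Finite.mem_toFinset, Set.mem_ofPred_eq, Finset.mem_filter, Finset.mem_Icc, hcl]
    constructor
    · rintro ⟨h4, h5, h6⟩; exact ⟨⟨by omega, h4⟩, h5, h6⟩
    · rintro ⟨h4, h5, h6⟩; exact ⟨h4.2, h5, h6⟩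
  have hset : ∀ (X : ℕ) (f : ℕ → ℝ), ∑ᶠ n ∈ {n : ℕ | n ≤ X ∧ InClass m W a n}, f n =
      ∑ n ∈ Finset.Icc 1 X, (if Ed m W a n ∧ n % 2 = 1 then f n else 0) := by
    intro X f
    rw [finsum_mem_eq_finite_toFinset_sum _ (hfin X), htoF, Finset.sum_filter]
  -- truncated averages
  set f : ℝ → ℕ → ℝ := fun t n => Fg (fun _ o => min ((max o 1 : ℕ) : ℝ) t) t n with hf
  have hIs : IsTr valH f := by
    constructor
    · intro t n k hk
      rw [hf]
      exact Fg_H hk
    · intro t n hn
      rw [hf]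
      exact Fg_not hn
  have hff : ∀ t n, n % 2 = 1 → f t n = truncated t n := by
    intro t n hn
    unfold truncated
    by_cases h : ∃ k, H k n
    · obtain ⟨k, hk⟩ := h
      rw [height_H hn hk, if_neg (ENat.natCast_ne_top _), ENat.toNat_natCast]
      exact Fg_H hk
    · rw [height_not hn h, if_pos rfl]
      exact Fg_not h
  have havg : ∀ Λ : ℝ, 2 / Real.log (16 / 9) < Λ →
      Tendsto (fun X : ℕ => 2 / (X * Real.log X) *
        ∑ᶠ n ∈ {n : ℕ | n ≤ X ∧ InClass m W a n}, truncated (Λ * Real.log X) n)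
        atTop (𝓝 (ρ * (δ * (2 / Real.log (16 / 9)) + (1 - δ) * Λ))) := by
    intro Λ hΛ
    rw [log_eq] at hΛ ⊢
    have h1 := avg (fun n => le_refl (id n)) one_pos log_id (fun _ _ => Nat.cast_nonneg _) (by positivity) bO_pos hLaw hIs
      (Λ := Λ) (by rw [mul_one]; exact hΛ)
    rw [mul_one] at h1
    have h4 := h1.const_mul 2
    have e3 : 2 * (ρ * (δ / 2) * (1 / Real.log (4 / 3)) + (ρ * (1 / 2) - ρ * (δ / 2)) * Λ) =
        ρ * (δ * (1 / Real.log (4 / 3)) + (1 - δ) * Λ) := by ring
    rw [e3] at h4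
    refine h4.congr fun X => ?_
    rw [hset]
    trans 2 * ((∑ n ∈ Finset.Icc 1 X, (if Ed m W a n ∧ n % 2 = 1 then truncated (Λ * Real.log X) n else 0)) /
      (X * Real.log X))
    · congr 2
      apply Finset.sum_congr rfl
      intro n _
      by_cases h : Ed m W a n ∧ n % 2 = 1
      · rw [if_pos (show Ed m W a (id n) ∧ (id n) % 2 = 1 from h), if_pos h, ← hff _ _ h.2]; rfl
      · rw [if_neg (show ¬ (Ed m W a (id n) ∧ (id n) % 2 = 1) from h), if_neg h]
    · ring
  -- the truncated sums are at most the sums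
  have hle : ∀ (X : ℕ) (t : ℝ), 0 ≤ t →
      ENNReal.ofReal (∑ᶠ n ∈ {n : ℕ | n ≤ X ∧ InClass m W a n}, truncated t n) ≤
        ((∑ᶠ n ∈ {n : ℕ | n ≤ X ∧ InClass m W a n}, height n : ℕ∞) : ENNReal) := by
    intro X t ht
    rw [finsum_mem_eq_finite_toFinset_sum _ (hfin X), finsum_mem_eq_finite_toFinset_sum _ (hfin X)]
    by_cases htop : ∃ n ∈ (hfin X).toFinset, height n = ⊤
    · obtain ⟨n, hn, hn'⟩ := htop
      have : ∑ n ∈ (hfin X).toFinset, height n = ⊤ := by
        have h4 : height n ≤ ∑ n ∈ (hfin X).toFinset, height n :=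
          Finset.single_le_sum (f := height) (fun _ _ => zero_le) hn
        rw [hn'] at h4
        exact top_le_iff.1 h4
      rw [this, ENat.toENNReal_top]
      exact le_top
    · push Not at htop
      have e : ∑ n ∈ (hfin X).toFinset, height n = ((∑ n ∈ (hfin X).toFinset, (height n).toNat : ℕ) : ℕ∞) := by
        push_cast
        apply Finset.sum_congr rfl
        intro n hn
        exact (ENat.natCast_toNat (htop n hn)).symm
      rw [e, ENat.toENNReal_coe, ← ENNReal.ofReal_natCast]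
      apply ENNReal.ofReal_le_ofReal
      push_cast
      apply Finset.sum_le_sum
      intro n hn
      unfold truncated
      rw [if_neg (htop n hn)]
      exact min_le_left _ _
  have htl : Tendsto (fun X : ℕ => Real.log (X : ℝ)) atTop atTop := Real.tendsto_log_atTop.comp tendsto_natCast_atTop_atTop
  -- lower bounds
  have hlow : ∀ Λ η : ℝ, 2 / Real.log (16 / 9) < Λ → 0 < η → ∀ᶠ X : ℕ in atTop,
      ENNReal.ofReal ((ρ / 2 * (δ * (2 / Real.log (16 / 9)) + (1 - δ) * Λ) - η) * (X * Real.log X)) ≤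
        ((∑ᶠ n ∈ {n : ℕ | n ≤ X ∧ InClass m W a n}, height n : ℕ∞) : ENNReal) := by
    intro Λ η hΛ hη
    have hΛ0 : 0 < Λ := by
      have : 0 < Real.log (16 / 9) := Real.log_pos (by norm_num)
      exact lt_trans (by positivity) hΛ
    filter_upwards [(havg Λ hΛ).eventually (lt_mem_nhds (show ρ * (δ * (2 / Real.log (16 / 9)) + (1 - δ) * Λ) - 2 * η <
      ρ * (δ * (2 / Real.log (16 / 9)) + (1 - δ) * Λ) by linarith)), htl.eventually_gt_atTop 0,
      eventually_ge_atTop 1] with X h4 h5 h6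
    have hX : (0 : ℝ) < X := by exact_mod_cast h6
    refine le_trans ?_ (hle X (Λ * Real.log X) (by positivity))
    apply ENNReal.ofReal_le_ofReal
    have hXL : 0 < X * Real.log X := by positivity
    rw [div_mul_eq_mul_div, lt_div_iff₀ hXL] at h4
    have h4' : (ρ * (δ * (2 / Real.log (16 / 9)) + (1 - δ) * Λ) - 2 * η) * (X * Real.log X) <
      2 * ∑ᶠ n ∈ {n : ℕ | n ≤ X ∧ InClass m W a n}, truncated (Λ * Real.log X) n := h4
    linarith
  refine ⟨fun ε hε => ?_, fun B hB => ?_, havg, fun φ hφ X hX => ?_, ?_⟩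
  · have hl : 0 < Real.log (16 / 9) := Real.log_pos (by norm_num)
    filter_upwards [hlow (2 / Real.log (16 / 9) + 1) (ρ / 2 * ε) (by linarith) (by positivity), htl.eventually_gt_atTop 0,
      eventually_ge_atTop 1] with X h4 h5 h6
    refine le_trans ?_ h4
    apply ENNReal.ofReal_le_ofReal
    have hX : (0 : ℝ) < X := by exact_mod_cast h6
    apply mul_le_mul_of_nonneg_right _ (by positivity)
    have h7 : δ * (2 / Real.log (16 / 9)) + (1 - δ) * (2 / Real.log (16 / 9) + 1) = 2 / Real.log (16 / 9) + (1 - δ) := by ring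
    rw [h7]
    have h8 : 0 ≤ 1 - δ := by linarith [hδ.le]
    have h9 : 0 ≤ ρ / 2 * (1 - δ) := by positivity
    linarith
  · rw [← hone]
    by_contra hne
    have hlt : 0 < 1 - δ := by
      have := lt_of_le_of_ne hδ.le hne
      linarith
    have hl : 0 < Real.log (16 / 9) := Real.log_pos (by norm_num)
    set Λ : ℝ := max (2 / Real.log (16 / 9) + 1) ((|B| + 2) / (ρ / 2 * (1 - δ))) with hΛ
    have hΛ1 : 2 / Real.log (16 / 9) < Λ := lt_of_lt_of_le (by linarith) (le_max_left _ _)
    have hΛ2 : |B| + 2 ≤ ρ / 2 * (1 - δ) * Λ := by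
      have h4 : (|B| + 2) / (ρ / 2 * (1 - δ)) ≤ Λ := le_max_right _ _
      rw [div_le_iff₀ (by positivity)] at h4
      linarith
    obtain ⟨X, h4, h5, h6, h7⟩ := (hB.and_eventually ((hlow Λ 1 hΛ1 one_pos).and ((htl.eventually_gt_atTop 0).and
      (eventually_ge_atTop 1)))).exists
    have hX : (0 : ℝ) < X := by exact_mod_cast h7
    have hXL : 0 < X * Real.log X := by positivity
    have h8 := h5.trans h4
    have h9 : B * (X * Real.log X) < (ρ / 2 * (δ * (2 / Real.log (16 / 9)) + (1 - δ) * Λ) - 1) * (X * Real.log X) := by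
      apply mul_lt_mul_of_pos_right _ hXL
      have h10 := le_abs_self B
      have h11 : 0 ≤ ρ / 2 * (δ * (2 / Real.log (16 / 9))) := by
        have := hδ.pos
        positivity
      linarith
    have h10 : 0 < (ρ / 2 * (δ * (2 / Real.log (16 / 9)) + (1 - δ) * Λ) - 1) * (X * Real.log X) := by
      apply mul_pos _ hXL
      have h10 := abs_nonneg B
      have h11 : 0 ≤ ρ / 2 * (δ * (2 / Real.log (16 / 9))) := by
        have := hδ.pos
        positivity
      linarith
    rw [ENNReal.ofReal_le_ofReal_iff'] at h8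
    rcases h8 with h8 | h8
    · linarith
    · linarith
  · have h1 := hA.fg (g := fun _ o => φ ((max o 1 : ℕ) : ℕ∞)) (g0 := φ ⊤) (fun _ _ => hφ _) (hφ _)
    have h4 := h1.tr X hX
    have e : ∀ n, (if n % 2 = 1 then Fg (fun _ o => φ ((max o 1 : ℕ) : ℕ∞)) (φ ⊤) n else 0) =
        if n % 2 = 1 then φ (height n) else 0 := by
      intro n
      by_cases hn : n % 2 = 1
      · rw [if_pos hn, if_pos hn]
        by_cases h : ∃ k, H k n
        · obtain ⟨k, hk⟩ := h
          rw [Fg_H hk, height_H hn hk]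
        · rw [Fg_not h, height_not hn h]
      · rw [if_neg hn, if_neg hn]
    simp only [e] at h4
    rw [hset, Finset.sum_filter]
    have e2 : ∑ n ∈ Finset.Icc 1 X, (if Ed m W a n ∧ n % 2 = 1 then φ (height n) else 0) =
        ∑ n ∈ Finset.Icc 1 X, ind (Ed m W a) n * (if n % 2 = 1 then φ (height n) else 0) := by
      apply Finset.sum_congr rfl
      intro n _
      by_cases h : Ed m W a n
      · rw [ind_pos h, one_mul]
        by_cases h5 : n % 2 = 1
        · rw [if_pos ⟨h, h5⟩, if_pos h5]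
        · rw [if_neg (fun h' => h5 h'.2), if_neg h5]
      · rw [ind_neg h, zero_mul, if_neg (fun h' => h h'.1)]
    rw [e2]
    exact h4
  · intro r b x hr
    have h1 := hJ r b hr x
    have e : ρ * (δ / r * Pool.Agent.H499R2.ND.Phi x / 2) = (ρ * (δ * Phi x / r)) / 2 := by
      have : Pool.Agent.H499R2.ND.Phi x = Phi x := Pool.Agent.H499R2.ND.phi_cdf x
      rw [this]; ring
    rw [e] at h1
    refine along_of h1 (fun n => ?_)
    rw [hcl]
    constructor
    · rintro ⟨h4, h5, h6⟩; exact ⟨h5, (level_iff r b x h4).1 h6⟩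
    · rintro ⟨h5, h6⟩; exact ⟨h5.2, h5, (level_iff r b x h5.2).2 h6⟩

end Pool.Agent.Results.MP_2b866c_nt.DigitClassesHeights
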