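import Pool.Agent.Run7.h439.DC.Dig2
import Pool.Agent.Run7.h792.FL.Share
import Pool.Agent.Run7.h792.FL.Plain

set_option autoImplicit false

/-!
# The average height over sets of residues to large moduli

Fix `0 < ε < 1`. At the scale `N`, the heights of the odd `m ≤ N` are independent, with a power saving which
is uniform, of every function of `m` modulo an odd `q` between `N ^ ε` and `N ^ (1 - ε)` whose Fourier
coefficients at the nonzero frequencies are at most `q ^ (1 / 2 + η)`. So over every set of residues of this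
kind, for example the quadratic residues modulo a prime between `N ^ ε` and `N ^ (1 - ε)`, the average order
of the height at the scale `N` is at least the conjectured one, and it is `O(log N)` for infinitely many `N`
only if all heights are finite.

Method: the dispersion argument of `Pool.Agent.Run7.h439.DC.Orth` at a level which is a small proportion of
`log q`; the correlations of the function along the progressions modulo the powers of two are, up to `O(q)`,
autocorrelations over whole periods, and the sum of the squares of the latter is bounded by Parseval.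
-/

namespace Pool.Agent.Results.MP_2b866c_nt.FlatResidues

open Filter Topology

/-- `C(m) = (3m+1)/2^e(m)`, `2^e(m)` the largest power of `2` dividing `3m+1` -/
def C (m : ℕ) : ℕ := (3 * m + 1) / 2 ^ padicValNat 2 (3 * m + 1)

/-- the height `h(m)`, the least `k ≥ 1` with `C^k(m) = 1`, and `⊤ = ∞` if there is none -/
noncomputable def height (m : ℕ) : ℕ∞ := sInf {k : ℕ∞ | ∃ j : ℕ, 1 ≤ j ∧ C^[j] m = 1 ∧ k = j}

/-- the height truncated at `t`, that is `min (h(m), t)` -/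
noncomputable def truncated (t : ℝ) (m : ℕ) : ℝ := if height m = ⊤ then t else min ((height m).toNat : ℝ) t

/-- `f` has period `q`, values of modulus at most `1`, and its Fourier coefficients at the nonzero
frequencies have modulus at most `q ^ (1 / 2 + η)`. -/
structure Flat (q : ℕ) (η : ℝ) (f : ℕ → ℂ) : Prop where
  bounded : ∀ n, ‖f n‖ ≤ 1
  periodic : ∀ n, f (n + q) = f n
  fourier : ∀ h : ℕ, 0 < h → h < q →
    ‖∑ a ∈ Finset.range q, f a * Complex.exp (2 * Real.pi * Complex.I * (h * a) / q)‖ ≤ (q : ℝ) ^ (1 / 2 + η)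

/-- the mean value of a function with period `q` -/
noncomputable def mean (q : ℕ) (f : ℕ → ℂ) : ℂ := (∑ a ∈ Finset.range q, f a) / q

/-- `A` is a subset of `{0, ..., q - 1}`, and the indicator function of the integers which are congruent to
an element of `A` modulo `q` is `Flat`. -/
def FlatSet (q : ℕ) (η : ℝ) (A : Finset ℕ) : Prop :=
  A ⊆ Finset.range q ∧ Flat q η (fun n => if n % q ∈ A then 1 else 0)

/-- `q` is odd and `N ^ ε ≤ q ≤ N ^ (1 - ε)`. -/
def InRange (ε : ℝ) (N q : ℕ) : Prop := Odd q ∧ (N : ℝ) ^ ε ≤ q ∧ (q : ℝ) ≤ (N : ℝ) ^ (1 - ε)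

/-- `2 / X` times the number of the odd `n ≤ X` with the property `P` tends to `d`. -/
def HasOddDensity (P : ℕ → Prop) (d : ℝ) : Prop :=
  Tendsto (fun X : ℕ => 2 / (X : ℝ) * ({n : ℕ | n ≤ X ∧ n % 2 = 1 ∧ P n}.ncard : ℝ)) atTop (𝓝 d)

open Pool.Agent.H499R2.ND in
theorem height_eq {m h : ℕ} (hh : IsHt m h) : height m = h := by
  unfold height
  apply le_antisymm
  · exact sInf_le ⟨h, hh.1, hh.2.1, rfl⟩
  · refine le_sInf ?_
    rintro k ⟨j, hj, hj1, rfl⟩
    have : h ≤ j := by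
      by_contra hlt
      exact hh.2.2 j hj (by omega) hj1
    exact_mod_cast this

open Pool.Agent.H499R2.ND in
theorem exists_isHt {m j : ℕ} (hj : 1 ≤ j) (h : C^[j] m = 1) : ∃ h, IsHt m h := by
  classical
  have hex : ∃ k, 1 ≤ k ∧ C^[k] m = 1 := ⟨j, hj, h⟩
  refine ⟨Nat.find hex, (Nat.find_spec hex).1, (Nat.find_spec hex).2, fun k hk hlt hk1 => ?_⟩
  exact Nat.find_min hex hlt ⟨hk, hk1⟩

open Pool.Agent.H499R2.ND in
theorem height_top {m : ℕ} (hh : ¬ ∃ h, IsHt m h) : height m = ⊤ := by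
  unfold height
  have : {k : ℕ∞ | ∃ j : ℕ, 1 ≤ j ∧ C^[j] m = 1 ∧ k = j} = ∅ := by
    rw [Set.eq_empty_iff_forall_notMem]
    rintro k ⟨j, hj, hj1, _⟩
    exact hh (exists_isHt hj hj1)
  rw [this, sInf_empty]

open Pool.Agent.H499R2.ND in
theorem height_lt_top_iff {m : ℕ} : height m ≠ ⊤ ↔ ∃ h, IsHt m h := by
  constructor
  · intro h
    by_contra hcon
    exact h (height_top hcon)
  · rintro ⟨h, hh⟩
    rw [height_eq hh]
    exact ENat.natCast_ne_top h

open Pool.Agent.H499R2.ND in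
theorem height_iff {m h : ℕ} : height m = h ↔ IsHt m h := by
  constructor
  · intro hm
    obtain ⟨h', hh'⟩ := height_lt_top_iff.1 (show height m ≠ ⊤ by rw [hm]; exact ENat.natCast_ne_top h)
    have h1 := height_eq hh'
    rw [hm] at h1
    have h2 : h = h' := by exact_mod_cast h1
    rw [h2]; exact hh'
  · exact height_eq

open Pool.Agent.H499R2.HL Pool.Agent.Y965.PL Pool.Agent.Run7.h439.DC Pool.Agent.Run7.h792.FL

theorem height_H {m k : ℕ} (hm : m % 2 = 1) (h : H k m) :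
    height m = ((max (Pool.Agent.H499R2.LT.odn k m) 1 : ℕ) : ℕ∞) :=
  height_eq ((ht_max hm _).2 ⟨k, h, rfl⟩)

theorem height_not {m : ℕ} (hm : m % 2 = 1) (h : ¬ ∃ k, H k m) : height m = ⊤ :=
  height_top fun hh => h ((ht_ex hm).1 hh)

theorem along_of {P Q : ℕ → Prop} {d : ℝ} (h : MnS id (ind Q) (d / 2)) (hPQ : ∀ n, n % 2 = 1 ∧ P n ↔ Q n) :
    HasOddDensity P d := by
  classical
  unfold HasOddDensity
  unfold MnS at h
  have h1 := h.const_mul 2
  rw [mul_div_cancel₀ d (by norm_num : (2 : ℝ) ≠ 0)] at h1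
  refine h1.congr fun X => ?_
  have e : {n : ℕ | n ≤ X ∧ n % 2 = 1 ∧ P n} = ((Finset.Icc 1 X).filter fun n => Q n : Finset ℕ) := by
    ext n
    simp only [Set.mem_ofPred_eq, Finset.coe_filter, Finset.mem_Icc]
    constructor
    · rintro ⟨g1, g2, g3⟩
      exact ⟨⟨by omega, g1⟩, (hPQ _).1 ⟨g2, g3⟩⟩
    · rintro ⟨g1, g3⟩
      exact ⟨g1.2, (hPQ _).2 g3⟩
  rw [e, Set.ncard_coe_finset]
  have e2 : ∑ n ∈ Finset.Icc 1 X, ind Q (id n) = (((Finset.Icc 1 X).filter fun n => Q n).card : ℝ) := by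
    rw [Finset.card_filter]
    push_cast
    refine Finset.sum_congr rfl fun n _ => ?_
    by_cases hq : Q n
    · rw [if_pos hq]
      exact ind_pos hq
    · rw [if_neg hq]
      exact ind_neg hq
  rw [e2]
  ring

theorem log_eq : 2 / Real.log (16 / 9) = 1 / Real.log (4 / 3) := by
  have : Real.log (16 / 9) = 2 * Real.log (4 / 3) := by
    rw [show (16 : ℝ) / 9 = (4 / 3) ^ 2 by norm_num, Real.log_pow]; push_cast; ring
  rw [this]
  have : Real.log (4 / 3) ≠ 0 := (Real.log_pos (by norm_num)).ne'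
  field_simp

/-- HEIGHTS IN SETS OF RESIDUES TO LARGE MODULI. Let `δ > 0` be the natural density, among the odd positive
integers, of those of finite height (`δ = 1` iff all heights are finite). For every `0 < ε < 1` there are
`η`, `c`, `K > 0` with the following properties; `N ≥ 1`, and `q` is odd with `N ^ ε ≤ q ≤ N ^ (1 - ε)`.

(1) (Uniform transfer.) For every `f` with period `q` and modulus at most `1` whose Fourier coefficients at
the nonzero frequencies are at most `q ^ (1 / 2 + η)`, for every function `φ` bounded by `1` and all `X ≤ N` the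
sum over the odd `m ≤ X` of `φ(h(m))` times `f(m)` minus the mean value of `f` has modulus at most
`K N ^ (1 - c)`.

(2) (Lower bound for the average order.) Let `0 ≤ v < c` and `ε' > 0`. For all large `N`, all `q` and all
flat `A` with `|A| ≥ q N ^ (-v)` the sum of `h(m)` (a number or `∞`) over the odd `m ≤ N` in the classes of `A` is
at least `(|A| / (2 q)) (2 / log (16/9) - ε') N log N`.

(3) If for some `B` and `0 ≤ v < c` there are for infinitely many `N` a number `q` and a flat `A` with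
`|A| ≥ q N ^ (-v)` such that the sum of `h(m)` over the odd `m ≤ N` in the classes of `A` is at most
`B (|A| / q) N log N`, then all odd positive integers have finite height.

(4) (Truncated average order.) Let `Λ > 2 / log (16/9)`, `0 ≤ v < c` and `τ > 0`. For all large `N`, all `q` and
all flat `A` with `|A| ≥ q N ^ (-v)` the sum of `min (h(m), Λ log N)` over the odd `m ≤ N` in the classes of `A` is
`(|A| / (2 q)) (δ * 2 / log (16/9) + (1 - δ) Λ) N log N` up to `τ (|A| / q) N log N`.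

(5) (Examples.) The hypothesis on `f` holds for the primitive Dirichlet characters modulo `q`, for
`exp (2 π i (a n ^ 2 + b n) / q)` with `a` coprime to `q`, and the hypothesis on `A` holds if `q = p` is prime and `A`
is invariant under multiplication by the `k`-th powers coprime to `p`, where `k + 1 ≤ p ^ (2 η)`. -/
theorem result : ∃ δ : ℝ, 0 < δ ∧ δ ≤ 1 ∧ (δ = 1 ↔ ∀ m : ℕ, Odd m → height m ≠ ⊤) ∧
    HasOddDensity (fun m => height m ≠ ⊤) δ ∧
    ∀ ε : ℝ, 0 < ε → ε < 1 → ∃ η c K : ℝ, 0 < η ∧ 0 < c ∧ c < 1 ∧ 0 < K ∧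
    (∀ N q : ℕ, 1 ≤ N → InRange ε N q → ∀ f : ℕ → ℂ, Flat q η f →
      ∀ φ : ℕ∞ → ℝ, (∀ t, |φ t| ≤ 1) → ∀ X : ℕ, X ≤ N →
      ‖∑ m ∈ (Finset.Icc 1 X).filter (fun m => m % 2 = 1), (φ (height m) : ℂ) * (f m - mean q f)‖ ≤
        K * (N : ℝ) ^ (1 - c)) ∧
    (∀ v ε' : ℝ, 0 ≤ v → v < c → 0 < ε' → ∃ N₀ : ℕ, ∀ N : ℕ, N₀ ≤ N → ∀ q : ℕ, InRange ε N q →
      ∀ A : Finset ℕ, FlatSet q η A → (q : ℝ) * (N : ℝ) ^ (-v) ≤ A.card →
      ENNReal.ofReal (A.card / (2 * q) * (2 / Real.log (16 / 9) - ε') * (N * Real.log N)) ≤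
        ((∑ᶠ m ∈ {m : ℕ | m ≤ N ∧ m % 2 = 1 ∧ m % q ∈ A}, height m : ℕ∞) : ENNReal)) ∧
    (∀ B v : ℝ, 0 ≤ v → v < c → (∃ᶠ N : ℕ in atTop, ∃ q : ℕ, InRange ε N q ∧ ∃ A : Finset ℕ, FlatSet q η A ∧
      (q : ℝ) * (N : ℝ) ^ (-v) ≤ A.card ∧
      ((∑ᶠ m ∈ {m : ℕ | m ≤ N ∧ m % 2 = 1 ∧ m % q ∈ A}, height m : ℕ∞) : ENNReal) ≤
        ENNReal.ofReal (B * (A.card / q) * (N * Real.log N))) → ∀ m : ℕ, Odd m → height m ≠ ⊤) ∧
    (∀ Λ v τ : ℝ, 2 / Real.log (16 / 9) < Λ → 0 ≤ v → v < c → 0 < τ → ∃ N₀ : ℕ, ∀ N : ℕ, N₀ ≤ N →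
      ∀ q : ℕ, InRange ε N q → ∀ A : Finset ℕ, FlatSet q η A → (q : ℝ) * (N : ℝ) ^ (-v) ≤ A.card →
      |∑ᶠ m ∈ {m : ℕ | m ≤ N ∧ m % 2 = 1 ∧ m % q ∈ A}, truncated (Λ * Real.log N) m -
        A.card / (2 * q) * (δ * (2 / Real.log (16 / 9)) + (1 - δ) * Λ) * (N * Real.log N)| ≤
        τ * (A.card / q) * (N * Real.log N)) ∧
    (∀ (q : ℕ) (χ : DirichletCharacter ℂ q), 1 ≤ q → χ.IsPrimitive → Flat q η (fun n => χ n)) ∧
    (∀ (q : ℕ) (a b : ℤ), Odd q → IsCoprime a q →
      Flat q η (fun n => Complex.exp (2 * Real.pi * Complex.I * (a * n ^ 2 + b * n) / q))) ∧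
    (∀ p k : ℕ, p.Prime → 1 ≤ k → (k : ℝ) + 1 ≤ (p : ℝ) ^ (2 * η) → ∀ A : Finset ℕ, A ⊆ Finset.range p →
      (∀ b : ℕ, Nat.Coprime b p → ∀ a ∈ A, b ^ k * a % p ∈ A) → FlatSet p η A) := by
  classical
  obtain ⟨δ, hδ, h2, h3⟩ := nat3
  have hν := nu_pos'
  have hone : δ = 1 ↔ ∀ m : ℕ, Odd m → height m ≠ ⊤ := by
    rw [h2]
    refine forall₂_congr fun n _ => ?_
    rw [height_lt_top_iff]
  refine ⟨δ, hδ.pos, hδ.le, hone, ?_, fun ε hε hε1 => ?_⟩
  · refine along_of (Q := fun n => n % 2 = 1 ∧ ∃ k, H k n) hδ.fin (fun n => and_congr_right fun hn => ?_)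
    rw [height_lt_top_iff, ht_ex hn]
  obtain ⟨η, c, K, hη, hc0, hc1, hK, S⟩ := tsa hε hε1
  have hFl : ∀ {q : ℕ} {f : ℕ → ℂ}, Flat q η f → FlatP q η f := fun h => ⟨h.1, h.2, h.3⟩
  have hlF : ∀ {q : ℕ} {f : ℕ → ℂ}, FlatP q η f → Flat q η f := fun h => ⟨h.1, h.2, h.3⟩
  have hFs : ∀ {q : ℕ} {A : Finset ℕ}, FlatSet q η A → FlatI q η A := fun h => ⟨h.1, hFl h.2⟩
  have hrho : ∀ {N q : ℕ} {A : Finset ℕ} {v : ℝ}, Odd q → (q : ℝ) * (N : ℝ) ^ (-v) ≤ A.card → (N : ℝ) ^ (-v) ≤ (A.card / q : ℝ) := by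
    intro N q A v hq h
    have hq0 : 0 < q := hq.pos
    have hqr : (0 : ℝ) < q := by exact_mod_cast hq0
    rw [le_div_iff₀ hqr]
    linarith
  -- all odd integers
  have hCT : CTO (fun _ => True) 1 0 (1 / 2) := by
    intro F hF
    refine ⟨fun n => ?_, fun N _ => ?_⟩
    · by_cases h : n % 2 = 1
      · rw [if_pos h]; exact hF.1 _
      · rw [if_neg h]; simp
    · rw [one_mul, zero_mul]
      have e : ∀ n ∈ Finset.Icc 1 N, ind (fun _ : ℕ => True) n * (if n % 2 = 1 then F (n : ℤ) else 0) =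
          if n % 2 = 1 then F (n : ℤ) else 0 := by
        intro n _
        rw [ind_pos (P := fun _ : ℕ => True) trivial, one_mul]
      rw [Finset.sum_congr rfl e, sub_self, abs_zero]
  obtain ⟨hLaw, -⟩ := hCT.Law zero_le_one le_rfl (by norm_num) hδ
  set f : ℝ → ℕ → ℝ := fun t n => Fg (fun _ o => min ((max o 1 : ℕ) : ℝ) t) t n with hf
  have hIs : IsTr valH f := by
    constructor
    · intro t n k hk
      rw [hf]
      exact Fg_H hk
    · intro t n hn
      rw [hf]
      exact Fg_not hn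
  have hff : ∀ t n, n % 2 = 1 → f t n = truncated t n := by
    intro t n hn
    unfold truncated
    by_cases h : ∃ k, H k n
    · obtain ⟨k, hk⟩ := h
      rw [height_H hn hk, if_neg (ENat.natCast_ne_top _), ENat.toNat_natCast]
      exact Fg_H hk
    · rw [height_not hn h, if_pos rfl]
      exact Fg_not h
  have hav : ∀ Λ : ℝ, 2 / Real.log (16 / 9) < Λ →
      Tendsto (fun X : ℕ => (∑ n ∈ Finset.Icc 1 X, (if n % 2 = 1 then truncated (Λ * Real.log X) n else 0)) / (X * Real.log X))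
        atTop (𝓝 ((δ * (2 / Real.log (16 / 9)) + (1 - δ) * Λ) / 2)) := by
    intro Λ hΛ
    rw [log_eq] at hΛ ⊢
    have h1 := avg (fun n => le_refl (id n)) one_pos log_id (fun _ _ => Nat.cast_nonneg _) (by positivity) bO_pos hLaw hIs
      (Λ := Λ) (by rw [mul_one]; exact hΛ)
    rw [mul_one, one_mul, one_mul] at h1
    have e3 : δ / 2 * (1 / Real.log (4 / 3)) + (1 / 2 - δ / 2) * Λ =
        (δ * (1 / Real.log (4 / 3)) + (1 - δ) * Λ) / 2 := by ring
    rw [e3] at h1
    refine h1.congr fun X => ?_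
    congr 1
    apply Finset.sum_congr rfl
    intro n _
    by_cases h : n % 2 = 1
    · rw [if_pos (show True ∧ (id n) % 2 = 1 from ⟨trivial, h⟩), if_pos h, ← hff _ _ h]; rfl
    · rw [if_neg (show ¬ (True ∧ (id n) % 2 = 1) from fun h' => h h'.2), if_neg h]
  have htl : Tendsto (fun X : ℕ => Real.log (X : ℝ)) atTop atTop := Real.tendsto_log_atTop.comp tendsto_natCast_atTop_atTop
  -- finite sets
  have hfin : ∀ (X q : ℕ) (A : Finset ℕ), {m : ℕ | m ≤ X ∧ m % 2 = 1 ∧ m % q ∈ A}.Finite :=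
    fun X q A => (Set.finite_Iic X).subset fun n hn => hn.1
  have htoF : ∀ (X q : ℕ) (A : Finset ℕ), (hfin X q A).toFinset = (Finset.Icc 1 X).filter (fun m => m % 2 = 1 ∧ m % q ∈ A) := by
    intro X q A
    ext n
    simp only [Set.Finite.mem_toFinset, Set.mem_ofPred_eq, Finset.mem_filter, Finset.mem_Icc]
    constructor
    · rintro ⟨h4, h5, h6⟩; exact ⟨⟨by omega, h4⟩, h5, h6⟩
    · rintro ⟨h4, h5, h6⟩; exact ⟨h4.2, h5, h6⟩
  have hset : ∀ (X q : ℕ) (A : Finset ℕ) (g : ℕ → ℝ), ∑ᶠ m ∈ {m : ℕ | m ≤ X ∧ m % 2 = 1 ∧ m % q ∈ A}, g m =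
      ∑ m ∈ Finset.Icc 1 X, ind (fun m => m % q ∈ A) m * (if m % 2 = 1 then g m else 0) := by
    intro X q A g
    rw [finsum_mem_eq_finite_toFinset_sum _ (hfin X q A), htoF, Finset.sum_filter]
    apply Finset.sum_congr rfl
    intro n _
    by_cases h1 : n % q ∈ A
    · rw [ind_pos (P := fun m => m % q ∈ A) h1, one_mul]
      by_cases h2 : n % 2 = 1
      · rw [if_pos ⟨h2, h1⟩, if_pos h2]
      · rw [if_neg (fun h => h2 h.1), if_neg h2]
    · rw [ind_neg (P := fun m => m % q ∈ A) h1, zero_mul, if_neg (fun h => h1 h.2)]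
  -- truncated sums in the flat sets
  have htr : ∀ N q : ℕ, 1 ≤ N → InRange ε N q → ∀ A : Finset ℕ, FlatSet q η A → ∀ t : ℝ, 0 < t →
      |∑ᶠ m ∈ {m : ℕ | m ≤ N ∧ m % 2 = 1 ∧ m % q ∈ A}, truncated t m -
        (A.card / q : ℝ) * ∑ m ∈ Finset.Icc 1 N, (if m % 2 = 1 then truncated t m else 0)| ≤ t * (K * (N : ℝ) ^ (1 - c)) := by
    intro N q hN hq A hA t ht
    have h1 := ((S.set hN hq.1 hq.2.1 hq.2.2 (hFs hA)).2).fg (g := fun _ o => min ((max o 1 : ℕ) : ℝ) t / t) (g0 := 1)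
      (fun k o => by
        rw [abs_of_nonneg (by positivity), div_le_one ht]
        exact min_le_right _ _) (by simp)
    have h4 := h1.tr N le_rfl
    have e : ∀ n, (if n % 2 = 1 then Fg (fun _ o => min ((max o 1 : ℕ) : ℝ) t / t) 1 n else 0) =
        (if n % 2 = 1 then truncated t n else 0) / t := by
      intro n
      by_cases hn : n % 2 = 1
      · rw [if_pos hn, if_pos hn]
        unfold truncated
        by_cases h : ∃ k, H k n
        · obtain ⟨k, hk⟩ := h
          rw [Fg_H hk, height_H hn hk, if_neg (ENat.natCast_ne_top _), ENat.toNat_natCast]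
        · rw [Fg_not h, height_not hn h, if_pos rfl, div_self ht.ne']
      · rw [if_neg hn, if_neg hn, zero_div]
    simp only [e] at h4
    rw [hset]
    have key2 : ∀ (a b : ℕ → ℝ) (ρ : ℝ), ∑ n ∈ Finset.Icc 1 N, a n * b n - ρ * ∑ n ∈ Finset.Icc 1 N, b n =
        t * (∑ n ∈ Finset.Icc 1 N, a n * (b n / t) - ρ * ∑ n ∈ Finset.Icc 1 N, b n / t) := by
      intro a b ρ
      have e1 : ∑ n ∈ Finset.Icc 1 N, a n * (b n / t) = (∑ n ∈ Finset.Icc 1 N, a n * b n) / t := by
        rw [Finset.sum_div]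
        apply Finset.sum_congr rfl
        intro n _
        ring
      rw [e1, ← Finset.sum_div]
      field_simp
    have e2 : ∑ m ∈ Finset.Icc 1 N, ind (fun m => m % q ∈ A) m * (if m % 2 = 1 then truncated t m else 0) -
        (A.card / q : ℝ) * ∑ m ∈ Finset.Icc 1 N, (if m % 2 = 1 then truncated t m else 0) =
        t * (∑ m ∈ Finset.Icc 1 N, ind (fun m => m % q ∈ A) m * ((if m % 2 = 1 then truncated t m else 0) / t) -
        (A.card / q : ℝ) * ∑ m ∈ Finset.Icc 1 N, (if m % 2 = 1 then truncated t m else 0) / t) := by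
      exact key2 _ _ _
    rw [e2, abs_mul, abs_of_pos ht]
    exact mul_le_mul_of_nonneg_left h4 ht.le
  have havA : ∀ Λ v τ : ℝ, 2 / Real.log (16 / 9) < Λ → 0 ≤ v → v < c → 0 < τ → ∃ N₀ : ℕ, 3 ≤ N₀ ∧ ∀ N : ℕ, N₀ ≤ N →
      ∀ q : ℕ, InRange ε N q → ∀ A : Finset ℕ, FlatSet q η A → (q : ℝ) * (N : ℝ) ^ (-v) ≤ A.card →
      |∑ᶠ m ∈ {m : ℕ | m ≤ N ∧ m % 2 = 1 ∧ m % q ∈ A}, truncated (Λ * Real.log N) m -
        A.card / (2 * q) * (δ * (2 / Real.log (16 / 9)) + (1 - δ) * Λ) * (N * Real.log N)| ≤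
        τ * (A.card / q) * (N * Real.log N) := by
    intro Λ v τ hΛ hv0 hv hτ
    have hΛ0 : 0 < Λ := by
      have : 0 < Real.log (16 / 9) := Real.log_pos (by norm_num)
      exact lt_trans (by positivity) hΛ
    have g1 := (Metric.tendsto_nhds.1 (hav Λ hΛ)) (τ / 2) (by positivity)
    obtain ⟨N₀, hN₀⟩ := (g1.and (small (C := Λ * K) hv (show 0 < τ / 2 by positivity))).exists_forall_of_atTop
    refine ⟨max N₀ 3, le_max_right _ _, fun N hN q hq A hA hcard => ?_⟩
    obtain ⟨k1, k2⟩ := hN₀ N ((le_max_left _ _).trans hN)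
    have hN3 : 3 ≤ N := (le_max_right _ _).trans hN
    have hN3r : (3 : ℝ) ≤ N := by exact_mod_cast hN3
    have hN0 : (0 : ℝ) < N := by linarith
    have hL1 : 1 ≤ Real.log N := by
      rw [Real.le_log_iff_exp_le (by positivity)]
      exact (Real.exp_one_lt_d9.le.trans (by norm_num)).trans hN3r
    have hL0 : 0 < Real.log N := by linarith
    have hρ := hrho (v := v) hq.1 hcard
    have hρ0 : 0 < (A.card / q : ℝ) := lt_of_lt_of_le (by positivity) hρ
    have h4 := htr N q (by omega) hq A hA (Λ * Real.log N) (by positivity)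
    have h5 := k2 _ hρ
    rw [Real.dist_eq] at k1
    set G := ∑ m ∈ Finset.Icc 1 N, (if m % 2 = 1 then truncated (Λ * Real.log N) m else 0) with hG
    set m0 := (δ * (2 / Real.log (16 / 9)) + (1 - δ) * Λ) with hm0
    have hNL : 0 < (N : ℝ) * Real.log N := by positivity
    have h6 : |G - m0 / 2 * (N * Real.log N)| ≤ τ / 2 * (N * Real.log N) := by
      have e : G / (N * Real.log N) - m0 / 2 = (G - m0 / 2 * (N * Real.log N)) / (N * Real.log N) := by field_simp
      rw [e, abs_div, abs_of_pos hNL, div_lt_iff₀ hNL] at k1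
      exact k1.le
    have h7 : |(A.card / q : ℝ) * G - A.card / (2 * q) * m0 * (N * Real.log N)| ≤ τ / 2 * (A.card / q) * (N * Real.log N) := by
      have e : (A.card / q : ℝ) * G - A.card / (2 * q) * m0 * (N * Real.log N) =
          (A.card / q : ℝ) * (G - m0 / 2 * (N * Real.log N)) := by
        have hq0 : (q : ℝ) ≠ 0 := by
          have : 0 < q := hq.1.pos
          exact_mod_cast this.ne'
        field_simp
      rw [e, abs_mul, abs_of_pos hρ0]
      calc (A.card / q : ℝ) * |G - m0 / 2 * (N * Real.log N)| ≤ (A.card / q : ℝ) * (τ / 2 * (N * Real.log N)) := by gcongr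
        _ = _ := by ring
    have h8 : Λ * Real.log N * (K * (N : ℝ) ^ (1 - c)) ≤ τ / 2 * (A.card / q) * (N * Real.log N) := by
      calc Λ * Real.log N * (K * (N : ℝ) ^ (1 - c)) = Real.log N * (Λ * K * (N : ℝ) ^ (1 - c)) := by ring
        _ ≤ Real.log N * (τ / 2 * ((A.card / q : ℝ) * N)) := by gcongr
        _ = _ := by ring
    have e9 : ∑ᶠ m ∈ {m : ℕ | m ≤ N ∧ m % 2 = 1 ∧ m % q ∈ A}, truncated (Λ * Real.log N) m -
        A.card / (2 * q) * m0 * (N * Real.log N) =
        (∑ᶠ m ∈ {m : ℕ | m ≤ N ∧ m % 2 = 1 ∧ m % q ∈ A}, truncated (Λ * Real.log N) m - (A.card / q : ℝ) * G) +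
        ((A.card / q : ℝ) * G - A.card / (2 * q) * m0 * (N * Real.log N)) := by ring
    rw [e9]
    refine (abs_add_le _ _).trans ?_
    linarith
  -- the truncated sums are at most the sums
  have hle : ∀ (X q : ℕ) (A : Finset ℕ) (t : ℝ), 0 ≤ t →
      ENNReal.ofReal (∑ᶠ m ∈ {m : ℕ | m ≤ X ∧ m % 2 = 1 ∧ m % q ∈ A}, truncated t m) ≤
        ((∑ᶠ m ∈ {m : ℕ | m ≤ X ∧ m % 2 = 1 ∧ m % q ∈ A}, height m : ℕ∞) : ENNReal) := by
    intro X q A t ht
    rw [finsum_mem_eq_finite_toFinset_sum _ (hfin X q A), finsum_mem_eq_finite_toFinset_sum _ (hfin X q A)]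
    by_cases htop : ∃ n ∈ (hfin X q A).toFinset, height n = ⊤
    · obtain ⟨n, hn, hn'⟩ := htop
      have : ∑ n ∈ (hfin X q A).toFinset, height n = ⊤ := by
        have h4 : height n ≤ ∑ n ∈ (hfin X q A).toFinset, height n :=
          Finset.single_le_sum (f := height) (fun _ _ => zero_le) hn
        rw [hn'] at h4
        exact top_le_iff.1 h4
      rw [this, ENat.toENNReal_top]
      exact le_top
    · push Not at htop
      have e : ∑ n ∈ (hfin X q A).toFinset, height n = ((∑ n ∈ (hfin X q A).toFinset, (height n).toNat : ℕ) : ℕ∞) := by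
        push_cast
        apply Finset.sum_congr rfl
        intro n hn
        exact (ENat.natCast_toNat (htop n hn)).symm
      rw [e, ENat.toENNReal_coe, ← ENNReal.ofReal_natCast]
      apply ENNReal.ofReal_le_ofReal
      push_cast
      apply Finset.sum_le_sum
      intro n hn
      unfold truncated
      rw [if_neg (htop n hn)]
      exact min_le_left _ _
  have hlow : ∀ Λ v τ : ℝ, 2 / Real.log (16 / 9) < Λ → 0 ≤ v → v < c → 0 < τ → ∃ N₀ : ℕ, 3 ≤ N₀ ∧ ∀ N : ℕ, N₀ ≤ N →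
      ∀ q : ℕ, InRange ε N q → ∀ A : Finset ℕ, FlatSet q η A → (q : ℝ) * (N : ℝ) ^ (-v) ≤ A.card →
      ENNReal.ofReal ((A.card / (2 * q) * (δ * (2 / Real.log (16 / 9)) + (1 - δ) * Λ) - τ * (A.card / q)) * (N * Real.log N)) ≤
        ((∑ᶠ m ∈ {m : ℕ | m ≤ N ∧ m % 2 = 1 ∧ m % q ∈ A}, height m : ℕ∞) : ENNReal) := by
    intro Λ v τ hΛ hv0 hv hτ
    have hΛ0 : 0 < Λ := by
      have : 0 < Real.log (16 / 9) := Real.log_pos (by norm_num)
      exact lt_trans (by positivity) hΛ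
    obtain ⟨N₀, hN3, hN₀⟩ := havA Λ v τ hΛ hv0 hv hτ
    refine ⟨N₀, hN3, fun N hN q hq A hA hcard => ?_⟩
    have h4 := (abs_le.1 (hN₀ N hN q hq A hA hcard)).1
    have hL : 0 ≤ Real.log N := Real.log_natCast_nonneg N
    refine le_trans ?_ (hle N q A (Λ * Real.log N) (by positivity))
    apply ENNReal.ofReal_le_ofReal
    linarith
  have hl16 : 0 < Real.log (16 / 9) := Real.log_pos (by norm_num)
  refine ⟨η, c, K + 1, hη, hc0, hc1, by linarith, ?_, ?_, ?_, ?_, ?_, ?_, ?_⟩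
  · intro N q hN hq fl hfl φ hφ X hX
    have h1 := async_Fg (g := fun _ o => φ ((max o 1 : ℕ) : ℕ∞)) (g0 := φ ⊤) (fun _ _ => hφ _) (hφ _)
    have h4 := (S.fun hN hq.1 hq.2.1 hq.2.2 (hFl hfl) h1 hX).2
    have e : ∑ m ∈ (Finset.Icc 1 X).filter (fun m => m % 2 = 1), (φ (height m) : ℂ) * (fl m - mean q fl) =
        ∑ n ∈ Finset.Icc 1 X, ((if n % 2 = 1 then Fg (fun _ o => φ ((max o 1 : ℕ) : ℕ∞)) (φ ⊤) ((n : ℤ)).toNat else 0 : ℝ) : ℂ) *
          (fl n - meanP q fl) := by
      rw [Finset.sum_filter]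
      apply Finset.sum_congr rfl
      intro n _
      by_cases hn : n % 2 = 1
      · rw [if_pos hn, if_pos hn, Int.toNat_natCast]
        by_cases h : ∃ k, H k n
        · obtain ⟨k, hk⟩ := h
          rw [Fg_H hk, height_H hn hk]; rfl
        · rw [Fg_not h, height_not hn h]; rfl
      · rw [if_neg hn, if_neg hn, Complex.ofReal_zero, zero_mul]
    rw [e]
    refine h4.trans ?_
    have : 0 ≤ (N : ℝ) ^ (1 - c) := by positivity
    nlinarith
  · intro v ε' hv0 hv hε'
    obtain ⟨N₀, hN3, hN₀⟩ := hlow (2 / Real.log (16 / 9) + 1) v (ε' / 2) (by linarith) hv0 hv (by positivity)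
    refine ⟨N₀, fun N hN q hq A hA hcard => ?_⟩
    refine le_trans ?_ (hN₀ N hN q hq A hA hcard)
    apply ENNReal.ofReal_le_ofReal
    have hL : 0 ≤ Real.log N := Real.log_natCast_nonneg N
    apply mul_le_mul_of_nonneg_right _ (by positivity)
    have h7 : δ * (2 / Real.log (16 / 9)) + (1 - δ) * (2 / Real.log (16 / 9) + 1) = 2 / Real.log (16 / 9) + (1 - δ) := by ring
    rw [h7]
    have h8 : 0 ≤ 1 - δ := by linarith [hδ.le]
    have hq0 : (0 : ℝ) < q := by
      have : 0 < q := hq.1.pos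
      exact_mod_cast this
    have h9 : 0 ≤ (A.card : ℝ) / (2 * q) * (1 - δ) := by positivity
    have e : ε' / 2 * ((A.card : ℝ) / q) = A.card / (2 * q) * ε' := by field_simp
    rw [e]
    linarith
  · intro B v hv0 hv hfreq
    rw [← hone]
    by_contra hne
    have hlt : 0 < 1 - δ := by
      have := lt_of_le_of_ne hδ.le hne
      linarith
    set Λ : ℝ := max (2 / Real.log (16 / 9) + 1) (2 * (|B| + 2) / (1 - δ)) with hΛ
    have hΛ1 : 2 / Real.log (16 / 9) < Λ := lt_of_lt_of_le (by linarith) (le_max_left _ _)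
    have hΛ2 : 2 * (|B| + 2) ≤ (1 - δ) * Λ := by
      have h4 : 2 * (|B| + 2) / (1 - δ) ≤ Λ := le_max_right _ _
      rw [div_le_iff₀ hlt] at h4
      linarith
    obtain ⟨N₀, hN3, hN₀⟩ := hlow Λ v 1 hΛ1 hv0 hv one_pos
    obtain ⟨N, ⟨q, hq, A, hA, hcard, hsum⟩, hN⟩ := (hfreq.and_eventually (eventually_ge_atTop N₀)).exists
    have h8 := (hN₀ N hN q hq A hA hcard).trans hsum
    have hN3r : (3 : ℝ) ≤ N := by exact_mod_cast hN3.trans hN
    have hN0 : (0 : ℝ) < N := by linarith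
    have hL0 : 0 < Real.log N := Real.log_pos (by linarith)
    have hNL : 0 < (N : ℝ) * Real.log N := by positivity
    have hρ := hrho (v := v) hq.1 hcard
    have hρ0 : 0 < (A.card / q : ℝ) := lt_of_lt_of_le (by positivity) hρ
    have hq0 : (0 : ℝ) < q := by
      have : 0 < q := hq.1.pos
      exact_mod_cast this
    have e1 : A.card / (2 * q) * (δ * (2 / Real.log (16 / 9)) + (1 - δ) * Λ) - 1 * (A.card / q : ℝ) =
        (A.card / q : ℝ) * ((δ * (2 / Real.log (16 / 9)) + (1 - δ) * Λ) / 2 - 1) := by field_simp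
    have h11 : 0 ≤ δ * (2 / Real.log (16 / 9)) := by
      have := hδ.pos
      positivity
    have hBabs := le_abs_self B
    have hBabs0 := abs_nonneg B
    have h12 : B < (δ * (2 / Real.log (16 / 9)) + (1 - δ) * Λ) / 2 - 1 := by linarith
    have h13 : 0 < (δ * (2 / Real.log (16 / 9)) + (1 - δ) * Λ) / 2 - 1 := by linarith
    rw [e1, ENNReal.ofReal_le_ofReal_iff'] at h8
    rcases h8 with h8 | h8
    · have h14 : B * (A.card / q : ℝ) * (N * Real.log N) <
          (A.card / q : ℝ) * ((δ * (2 / Real.log (16 / 9)) + (1 - δ) * Λ) / 2 - 1) * (N * Real.log N) := by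
        apply mul_lt_mul_of_pos_right _ hNL
        rw [mul_comm B]
        exact mul_lt_mul_of_pos_left h12 hρ0
      linarith
    · have h14 : 0 < (A.card / q : ℝ) * ((δ * (2 / Real.log (16 / 9)) + (1 - δ) * Λ) / 2 - 1) * (N * Real.log N) := by
        positivity
      linarith
  · intro Λ v τ hΛ hv0 hv hτ
    obtain ⟨N₀, hN3, hN₀⟩ := havA Λ v τ hΛ hv0 hv hτ
    exact ⟨N₀, hN₀⟩
  · intro q χ hq hχ
    exact hlF (flatP_char hq hη.le hχ)
  · intro q a b hq hab
    exact hlF (flatP_quad hη.le hq hab b)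
  · intro p k hp hk hkp A hA h
    have h5 := flatI_pow hp hk hkp hA h
    exact ⟨h5.1, hlF h5.2⟩

end Pool.Agent.Results.MP_2b866c_nt.FlatResidues
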