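import Pool.Agent.Run7.h439.DC.Poly4

set_option autoImplicit false

/-!
# Heights of odd integers and polynomials modulo one

A class consists of the odd integers `m` for which the fractional part of `p(m)` is in a given interval, where `p` is
a real polynomial of degree at least two whose leading coefficient is irrational and not a Liouville number. In every
class the average order of the height is at least the conjectured one, and it is finite along a sequence of cut-offs
(in the sense `O(log X)`) only if all heights are finite; the truncated average order is the expected one in every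
class, the limit law holds, and every bounded function of the height has its proportional share in the class with a
power saving error term which is uniform in the function, the class and all coefficients but the leading one.

Method: a dispersion argument. For `m > 2 ^ t` the number of odd terms of the trajectory of `m` before `1` is a
function of `T^t(m)` and the number of odd terms before it; for a given number of odd terms the integers `m ≤ N` with
the same `T^t(m)` lie in a short interval and are determined by their residue modulo `2 ^ t`, and along the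
progressions modulo `2 ^ t` the differences `p(m + h) - p(m)` are polynomials of lower degree to which the inverse
theorem for Weyl sums can be applied.
-/

namespace Pool.Agent.Results.MP_2b866c_nt.PolynomialClasses

open Filter Topology

/-- `C(m) = (3m+1)/2^e(m)`, `2^e(m)` the largest power of `2` dividing `3m+1` -/
def C (m : ℕ) : ℕ := (3 * m + 1) / 2 ^ padicValNat 2 (3 * m + 1)

/-- the height `h(m)`, the least `k ≥ 1` with `C^k(m) = 1`, and `⊤ = ∞` if there is none -/
noncomputable def height (m : ℕ) : ℕ∞ := sInf {k : ℕ∞ | ∃ j : ℕ, 1 ≤ j ∧ C^[j] m = 1 ∧ k = j}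

/-- the height truncated at `t`, that is `min (h(m), t)` -/
noncomputable def truncated (t : ℝ) (m : ℕ) : ℝ := if height m = ⊤ then t else min ((height m).toNat : ℝ) t

/-- `α` is irrational and not a Liouville number. -/
def Diophantine (α : ℝ) : Prop :=
  ∃ A c : ℝ, 0 < c ∧ ∀ l : ℕ, 1 ≤ l → ∀ a : ℤ, c * (l : ℝ) ^ (-A) ≤ |l * α - a|

/-- The data: a real polynomial `p` of degree `e` with leading coefficient `α`, and `0 ≤ u < v ≤ 1`. -/
structure Data (e : ℕ) (α : ℝ) (p : Polynomial ℝ) (u v : ℝ) : Prop where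
  deg : p.natDegree ≤ e
  lead : p.coeff e = α
  nonneg : 0 ≤ u
  lt : u < v
  le_one : v ≤ 1

/-- the class: the odd positive integers `n` with the fractional part of `p(n)` in `[u, v)` -/
def InClass (p : Polynomial ℝ) (u v : ℝ) (n : ℕ) : Prop :=
  n % 2 = 1 ∧ u ≤ Int.fract (p.eval (n : ℝ)) ∧ Int.fract (p.eval (n : ℝ)) < v

/-- `2 / X` times the number of the odd `n ≤ X` with the property `P` tends to `d`. -/
def HasOddDensity (P : ℕ → Prop) (d : ℝ) : Prop :=
  Tendsto (fun X : ℕ => 2 / (X : ℝ) * ({n : ℕ | n ≤ X ∧ n % 2 = 1 ∧ P n}.ncard : ℝ)) atTop (𝓝 d)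

/-- `2 / log (16/9) * log m + x * log 2 * √(2 log m / (log (4/3))^3)` -/
noncomputable def bound (x : ℝ) (m : ℕ) : ℝ :=
  2 / Real.log (16 / 9) * Real.log m
    + x * (Real.log 2 * Real.sqrt (2 * Real.log m / Real.log (4 / 3) ^ 3))

/-- The distribution function of the standard normal law. -/
noncomputable def Phi (x : ℝ) : ℝ :=
  ProbabilityTheory.cdf (ProbabilityTheory.gaussianReal 0 1) x

/-- `m` has a finite height, which is at most `bound x m` and congruent to `b` modulo `r`. -/
def Level (r : ℕ) (b : ℤ) (x : ℝ) (m : ℕ) : Prop :=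
  ∃ h : ℕ, height m = h ∧ (h : ℝ) ≤ bound x m ∧ (h : ℤ) ≡ b [ZMOD r]

open Pool.Agent.H499R2.ND in
theorem height_eq {m h : ℕ} (hh : IsHt m h) : height m = h := by
  unfold height
  apply le_antisymm
  · exact sInf_le ⟨h, hh.1, hh.2.1, rfl⟩
  · refine le_sInf ?_
    rintro k ⟨j, hj, hj1, rfl⟩
    have : h ≤ j := by
      by_contra hlt
      exact hh.2.2 j hj (by omega) hj1
    exact_mod_cast this

open Pool.Agent.H499R2.ND in
theorem exists_isHt {m j : ℕ} (hj : 1 ≤ j) (h : C^[j] m = 1) : ∃ h, IsHt m h := by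
  classical
  have hex : ∃ k, 1 ≤ k ∧ C^[k] m = 1 := ⟨j, hj, h⟩
  refine ⟨Nat.find hex, (Nat.find_spec hex).1, (Nat.find_spec hex).2, fun k hk hlt hk1 => ?_⟩
  exact Nat.find_min hex hlt ⟨hk, hk1⟩

open Pool.Agent.H499R2.ND in
theorem height_top {m : ℕ} (hh : ¬ ∃ h, IsHt m h) : height m = ⊤ := by
  unfold height
  have : {k : ℕ∞ | ∃ j : ℕ, 1 ≤ j ∧ C^[j] m = 1 ∧ k = j} = ∅ := by
    rw [Set.eq_empty_iff_forall_notMem]
    rintro k ⟨j, hj, hj1, _⟩
    exact hh (exists_isHt hj hj1)
  rw [this, sInf_empty]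

open Pool.Agent.H499R2.ND in
theorem height_lt_top_iff {m : ℕ} : height m ≠ ⊤ ↔ ∃ h, IsHt m h := by
  constructor
  · intro h
    by_contra hcon
    exact h (height_top hcon)
  · rintro ⟨h, hh⟩
    rw [height_eq hh]
    exact ENat.natCast_ne_top h

open Pool.Agent.H499R2.ND in
theorem height_iff {m h : ℕ} : height m = h ↔ IsHt m h := by
  constructor
  · intro hm
    obtain ⟨h', hh'⟩ := height_lt_top_iff.1 (show height m ≠ ⊤ by rw [hm]; exact ENat.natCast_ne_top h)
    have h1 := height_eq hh'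
    rw [hm] at h1
    have h2 : h = h' := by exact_mod_cast h1
    rw [h2]; exact hh'
  · exact height_eq

theorem bound_eq (x : ℝ) (m : ℕ) : bound x m = Pool.Agent.H499R2.HL.bo x (Real.log m) := by
  unfold bound Pool.Agent.H499R2.HL.bo
  have : Real.log (16 / 9) = 2 * Real.log (4 / 3) := by
    rw [show (16 : ℝ) / 9 = (4 / 3) ^ 2 by norm_num, Real.log_pow]; push_cast; ring
  rw [this]
  have : Real.log (4 / 3) ≠ 0 := (Real.log_pos (by norm_num)).ne'
  congr 2
  field_simp

open Pool.Agent.H499R2.HL Pool.Agent.Y965.PL Pool.Agent.Run7.h439.DC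

theorem level_iff (q : ℕ) (b : ℤ) (x : ℝ) {m : ℕ} (hm : m % 2 = 1) : Level q b x m ↔
    Lv valH (clsH q b) (th (1 / Real.log (4 / 3)) bO x) m := by
  rw [← lev_ht q b x hm]
  unfold Level
  refine exists_congr fun h => ?_
  rw [height_iff, bound_eq]

theorem height_H {m k : ℕ} (hm : m % 2 = 1) (h : H k m) :
    height m = ((max (Pool.Agent.H499R2.LT.odn k m) 1 : ℕ) : ℕ∞) :=
  height_eq ((ht_max hm _).2 ⟨k, h, rfl⟩)

theorem height_not {m : ℕ} (hm : m % 2 = 1) (h : ¬ ∃ k, H k m) : height m = ⊤ :=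
  height_top fun hh => h ((ht_ex hm).1 hh)

theorem along_of {P Q : ℕ → Prop} {d : ℝ} (h : MnS id (ind Q) (d / 2)) (hPQ : ∀ n, n % 2 = 1 ∧ P n ↔ Q n) :
    HasOddDensity P d := by
  classical
  unfold HasOddDensity
  unfold MnS at h
  have h1 := h.const_mul 2
  rw [mul_div_cancel₀ d (by norm_num : (2 : ℝ) ≠ 0)] at h1
  refine h1.congr fun X => ?_
  have e : {n : ℕ | n ≤ X ∧ n % 2 = 1 ∧ P n} = ((Finset.Icc 1 X).filter fun n => Q n : Finset ℕ) := by
    ext n
    simp only [Set.mem_ofPred_eq, Finset.coe_filter, Finset.mem_Icc]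
    constructor
    · rintro ⟨g1, g2, g3⟩
      exact ⟨⟨by omega, g1⟩, (hPQ _).1 ⟨g2, g3⟩⟩
    · rintro ⟨g1, g3⟩
      exact ⟨g1.2, (hPQ _).2 g3⟩
  rw [e, Set.ncard_coe_finset]
  have e2 : ∑ n ∈ Finset.Icc 1 X, ind Q (id n) = (((Finset.Icc 1 X).filter fun n => Q n).card : ℝ) := by
    rw [Finset.card_filter]
    push_cast
    refine Finset.sum_congr rfl fun n _ => ?_
    by_cases hq : Q n
    · rw [if_pos hq]
      exact ind_pos hq
    · rw [if_neg hq]
      exact ind_neg hq
  rw [e2]
  ring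

theorem log_eq : 2 / Real.log (16 / 9) = 1 / Real.log (4 / 3) := by
  have : Real.log (16 / 9) = 2 * Real.log (4 / 3) := by
    rw [show (16 : ℝ) / 9 = (4 / 3) ^ 2 by norm_num, Real.log_pow]; push_cast; ring
  rw [this]
  have : Real.log (4 / 3) ≠ 0 := (Real.log_pos (by norm_num)).ne'
  field_simp

/-- HEIGHTS IN THE CLASSES OF POLYNOMIALS. Let `δ > 0` be the natural density, among the odd positive integers, of
those of finite height (`δ = 1` iff all heights are finite). For all `e ≥ 2` and all irrational `α` which are not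
Liouville numbers there are `K` and `c > 0` such that for every real polynomial `p` of degree `e` with leading
coefficient `α` and all `0 ≤ u < v ≤ 1`, with the class of the odd `m` with the fractional part of `p(m)` in
`[u, v)` and with `ρ = v - u`:

(1) (Lower bound for the average order.) For every `ε > 0` and all large `X` the sum of `h(m)` over the
`m ≤ X` in the class (a number or `∞`) is at least `(ρ / 2) (2 / log (16/9) - ε) X log X`.

(2) If for some `B` and infinitely many `X` the sum of `h(m)` over the `m ≤ X` in the class is at most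
`B X log X`, then all odd positive integers have finite height.

(3) (Truncated average order.) For `Λ > 2 / log (16/9)` the sum of `min (h(m), Λ log X)` over the `m ≤ X`
in the class, multiplied by `2 / X`, is asymptotically `ρ (δ * 2 / log (16/9) + (1 - δ) Λ) log X`.

(4) (Uniform transfer.) For every function `φ`, bounded by `1`, and all `X ≥ 1` the sum of `φ(h(m))` over
the `m ≤ X` in the class is `ρ` times the sum over all odd `m ≤ X`, up to `K X ^ (1 - c)`.

(5) (Law.) Among the odd integers the `m` of the class with finite height, congruent to `b` modulo `r` and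
at most `bound x`, have density `ρ δ Phi(x) / r`. -/
theorem result : ∃ δ : ℝ, 0 < δ ∧ δ ≤ 1 ∧ (δ = 1 ↔ ∀ m : ℕ, Odd m → height m ≠ ⊤) ∧
    HasOddDensity (fun m => height m ≠ ⊤) δ ∧
    ∀ (e : ℕ) (α : ℝ), 2 ≤ e → Diophantine α →
    ∃ K c : ℝ, 0 < c ∧ ∀ (p : Polynomial ℝ) (u v : ℝ), Data e α p u v →
    (∀ ε : ℝ, 0 < ε → ∀ᶠ X : ℕ in atTop,
      ENNReal.ofReal ((v - u) / 2 * (2 / Real.log (16 / 9) - ε) * (X * Real.log X)) ≤
        ((∑ᶠ n ∈ {n : ℕ | n ≤ X ∧ InClass p u v n}, height n : ℕ∞) : ENNReal)) ∧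
    (∀ B : ℝ, (∃ᶠ X : ℕ in atTop,
        ((∑ᶠ n ∈ {n : ℕ | n ≤ X ∧ InClass p u v n}, height n : ℕ∞) : ENNReal) ≤
          ENNReal.ofReal (B * (X * Real.log X))) → ∀ n : ℕ, Odd n → height n ≠ ⊤) ∧
    (∀ Λ : ℝ, 2 / Real.log (16 / 9) < Λ →
      Tendsto (fun X : ℕ => 2 / (X * Real.log X) *
        ∑ᶠ n ∈ {n : ℕ | n ≤ X ∧ InClass p u v n}, truncated (Λ * Real.log X) n)
        atTop (𝓝 ((v - u) * (δ * (2 / Real.log (16 / 9)) + (1 - δ) * Λ)))) ∧
    (∀ φ : ℕ∞ → ℝ, (∀ t, |φ t| ≤ 1) → ∀ X : ℕ, 1 ≤ X →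
      |∑ᶠ n ∈ {n : ℕ | n ≤ X ∧ InClass p u v n}, φ (height n) -
        (v - u) * ∑ n ∈ (Finset.Icc 1 X).filter (fun n => n % 2 = 1), φ (height n)| ≤
        K * (X : ℝ) ^ (1 - c)) ∧
    (∀ (r : ℕ) (b : ℤ) (x : ℝ), 1 ≤ r →
      HasOddDensity (fun n => InClass p u v n ∧ Level r b x n) ((v - u) * (δ * Phi x / r))) := by
  classical
  obtain ⟨δ, hδ, h2, h3⟩ := nat3
  have hν := nu_pos'
  have hone : δ = 1 ↔ ∀ m : ℕ, Odd m → height m ≠ ⊤ := by
    rw [h2]
    refine forall₂_congr fun n _ => ?_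
    rw [height_lt_top_iff]
  refine ⟨δ, hδ.pos, hδ.le, hone, ?_, fun e α he hα => ?_⟩
  · refine along_of (Q := fun n => n % 2 = 1 ∧ ∃ k, H k n) hδ.fin (fun n => and_congr_right fun hn => ?_)
    rw [height_lt_top_iff, ht_ex hn]
  obtain ⟨K, c, hK, hc0, _, hT⟩ := cta_poly (k := e - 1) (by omega) hα
  refine ⟨K, c, hc0, fun p u v hD => ?_⟩
  have hPD : PD (e - 1) α p u v := by
    have e1 : e - 1 + 1 = e := by omega
    exact ⟨by rw [e1]; exact hD.deg, by rw [e1]; exact hD.lead, hD.nonneg, hD.lt.le, hD.le_one⟩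
  have hρ0 : 0 < v - u := by linarith [hD.lt]
  have hρ1 : v - u ≤ 1 := by linarith [hD.nonneg, hD.le_one]
  have hA' := (hT p u v hPD).2.2
  set ρ : ℝ := v - u with hρ
  have hA : CTO (Ep p u v) ρ K c := hA'
  obtain ⟨hLaw, hJ⟩ := hA.Law hρ0.le hρ1 hc0 hδ
  have hcl : ∀ n, InClass p u v n ↔ Ep p u v n ∧ n % 2 = 1 := by
    intro n
    unfold InClass Ep
    rw [and_comm]
  have hfin : ∀ X : ℕ, {n : ℕ | n ≤ X ∧ InClass p u v n}.Finite := fun X => (Set.finite_Iic X).subset fun n hn => hn.1
  have htoF : ∀ X : ℕ, (hfin X).toFinset = (Finset.Icc 1 X).filter (fun n => Ep p u v n ∧ n % 2 = 1) := by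
    intro X
    ext n
    simp only [Set.Finite.mem_toFinset, Set.mem_ofPred_eq, Finset.mem_filter, Finset.mem_Icc, hcl]
    constructor
    · rintro ⟨h4, h5, h6⟩; exact ⟨⟨by omega, h4⟩, h5, h6⟩
    · rintro ⟨h4, h5, h6⟩; exact ⟨h4.2, h5, h6⟩
  have hset : ∀ (X : ℕ) (f : ℕ → ℝ), ∑ᶠ n ∈ {n : ℕ | n ≤ X ∧ InClass p u v n}, f n =
      ∑ n ∈ Finset.Icc 1 X, (if Ep p u v n ∧ n % 2 = 1 then f n else 0) := by
    intro X f
    rw [finsum_mem_eq_finite_toFinset_sum _ (hfin X), htoF, Finset.sum_filter]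
  -- truncated averages
  set f : ℝ → ℕ → ℝ := fun t n => Fg (fun _ o => min ((max o 1 : ℕ) : ℝ) t) t n with hf
  have hIs : IsTr valH f := by
    constructor
    · intro t n k hk
      rw [hf]
      exact Fg_H hk
    · intro t n hn
      rw [hf]
      exact Fg_not hn
  have hff : ∀ t n, n % 2 = 1 → f t n = truncated t n := by
    intro t n hn
    unfold truncated
    by_cases h : ∃ k, H k n
    · obtain ⟨k, hk⟩ := h
      rw [height_H hn hk, if_neg (ENat.natCast_ne_top _), ENat.toNat_natCast]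
      exact Fg_H hk
    · rw [height_not hn h, if_pos rfl]
      exact Fg_not h
  have havg : ∀ Λ : ℝ, 2 / Real.log (16 / 9) < Λ →
      Tendsto (fun X : ℕ => 2 / (X * Real.log X) *
        ∑ᶠ n ∈ {n : ℕ | n ≤ X ∧ InClass p u v n}, truncated (Λ * Real.log X) n)
        atTop (𝓝 (ρ * (δ * (2 / Real.log (16 / 9)) + (1 - δ) * Λ))) := by
    intro Λ hΛ
    rw [log_eq] at hΛ ⊢
    have h1 := avg (fun n => le_refl (id n)) one_pos log_id (fun _ _ => Nat.cast_nonneg _) (by positivity) bO_pos hLaw hIs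
      (Λ := Λ) (by rw [mul_one]; exact hΛ)
    rw [mul_one] at h1
    have h4 := h1.const_mul 2
    have e3 : 2 * (ρ * (δ / 2) * (1 / Real.log (4 / 3)) + (ρ * (1 / 2) - ρ * (δ / 2)) * Λ) =
        ρ * (δ * (1 / Real.log (4 / 3)) + (1 - δ) * Λ) := by ring
    rw [e3] at h4
    refine h4.congr fun X => ?_
    rw [hset]
    trans 2 * ((∑ n ∈ Finset.Icc 1 X, (if Ep p u v n ∧ n % 2 = 1 then truncated (Λ * Real.log X) n else 0)) /
      (X * Real.log X))
    · congr 2
      apply Finset.sum_congr rfl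
      intro n _
      by_cases h : Ep p u v n ∧ n % 2 = 1
      · rw [if_pos (show Ep p u v (id n) ∧ (id n) % 2 = 1 from h), if_pos h, ← hff _ _ h.2]; rfl
      · rw [if_neg (show ¬ (Ep p u v (id n) ∧ (id n) % 2 = 1) from h), if_neg h]
    · ring
  -- the truncated sums are at most the sums
  have hle : ∀ (X : ℕ) (t : ℝ), 0 ≤ t →
      ENNReal.ofReal (∑ᶠ n ∈ {n : ℕ | n ≤ X ∧ InClass p u v n}, truncated t n) ≤
        ((∑ᶠ n ∈ {n : ℕ | n ≤ X ∧ InClass p u v n}, height n : ℕ∞) : ENNReal) := by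
    intro X t ht
    rw [finsum_mem_eq_finite_toFinset_sum _ (hfin X), finsum_mem_eq_finite_toFinset_sum _ (hfin X)]
    by_cases htop : ∃ n ∈ (hfin X).toFinset, height n = ⊤
    · obtain ⟨n, hn, hn'⟩ := htop
      have : ∑ n ∈ (hfin X).toFinset, height n = ⊤ := by
        have h4 : height n ≤ ∑ n ∈ (hfin X).toFinset, height n :=
          Finset.single_le_sum (f := height) (fun _ _ => zero_le) hn
        rw [hn'] at h4
        exact top_le_iff.1 h4
      rw [this, ENat.toENNReal_top]
      exact le_top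
    · push Not at htop
      have e : ∑ n ∈ (hfin X).toFinset, height n = ((∑ n ∈ (hfin X).toFinset, (height n).toNat : ℕ) : ℕ∞) := by
        push_cast
        apply Finset.sum_congr rfl
        intro n hn
        exact (ENat.natCast_toNat (htop n hn)).symm
      rw [e, ENat.toENNReal_coe, ← ENNReal.ofReal_natCast]
      apply ENNReal.ofReal_le_ofReal
      push_cast
      apply Finset.sum_le_sum
      intro n hn
      unfold truncated
      rw [if_neg (htop n hn)]
      exact min_le_left _ _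
  have htl : Tendsto (fun X : ℕ => Real.log (X : ℝ)) atTop atTop := Real.tendsto_log_atTop.comp tendsto_natCast_atTop_atTop
  -- lower bounds
  have hlow : ∀ Λ η : ℝ, 2 / Real.log (16 / 9) < Λ → 0 < η → ∀ᶠ X : ℕ in atTop,
      ENNReal.ofReal ((ρ / 2 * (δ * (2 / Real.log (16 / 9)) + (1 - δ) * Λ) - η) * (X * Real.log X)) ≤
        ((∑ᶠ n ∈ {n : ℕ | n ≤ X ∧ InClass p u v n}, height n : ℕ∞) : ENNReal) := by
    intro Λ η hΛ hη
    have hΛ0 : 0 < Λ := by
      have : 0 < Real.log (16 / 9) := Real.log_pos (by norm_num)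
      exact lt_trans (by positivity) hΛ
    filter_upwards [(havg Λ hΛ).eventually (lt_mem_nhds (show ρ * (δ * (2 / Real.log (16 / 9)) + (1 - δ) * Λ) - 2 * η <
      ρ * (δ * (2 / Real.log (16 / 9)) + (1 - δ) * Λ) by linarith)), htl.eventually_gt_atTop 0,
      eventually_ge_atTop 1] with X h4 h5 h6
    have hX : (0 : ℝ) < X := by exact_mod_cast h6
    refine le_trans ?_ (hle X (Λ * Real.log X) (by positivity))
    apply ENNReal.ofReal_le_ofReal
    have hXL : 0 < X * Real.log X := by positivity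
    rw [div_mul_eq_mul_div, lt_div_iff₀ hXL] at h4
    have h4' : (ρ * (δ * (2 / Real.log (16 / 9)) + (1 - δ) * Λ) - 2 * η) * (X * Real.log X) <
      2 * ∑ᶠ n ∈ {n : ℕ | n ≤ X ∧ InClass p u v n}, truncated (Λ * Real.log X) n := h4
    linarith
  refine ⟨fun ε hε => ?_, fun B hB => ?_, havg, fun φ hφ X hX => ?_, ?_⟩
  · have hl : 0 < Real.log (16 / 9) := Real.log_pos (by norm_num)
    filter_upwards [hlow (2 / Real.log (16 / 9) + 1) (ρ / 2 * ε) (by linarith) (by positivity), htl.eventually_gt_atTop 0,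
      eventually_ge_atTop 1] with X h4 h5 h6
    refine le_trans ?_ h4
    apply ENNReal.ofReal_le_ofReal
    have hX : (0 : ℝ) < X := by exact_mod_cast h6
    apply mul_le_mul_of_nonneg_right _ (by positivity)
    have h7 : δ * (2 / Real.log (16 / 9)) + (1 - δ) * (2 / Real.log (16 / 9) + 1) = 2 / Real.log (16 / 9) + (1 - δ) := by ring
    rw [h7]
    have h8 : 0 ≤ 1 - δ := by linarith [hδ.le]
    have h9 : 0 ≤ ρ / 2 * (1 - δ) := by positivity
    linarith
  · rw [← hone]
    by_contra hne
    have hlt : 0 < 1 - δ := by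
      have := lt_of_le_of_ne hδ.le hne
      linarith
    have hl : 0 < Real.log (16 / 9) := Real.log_pos (by norm_num)
    set Λ : ℝ := max (2 / Real.log (16 / 9) + 1) ((|B| + 2) / (ρ / 2 * (1 - δ))) with hΛ
    have hΛ1 : 2 / Real.log (16 / 9) < Λ := lt_of_lt_of_le (by linarith) (le_max_left _ _)
    have hΛ2 : |B| + 2 ≤ ρ / 2 * (1 - δ) * Λ := by
      have h4 : (|B| + 2) / (ρ / 2 * (1 - δ)) ≤ Λ := le_max_right _ _
      rw [div_le_iff₀ (by positivity)] at h4
      linarith
    obtain ⟨X, h4, h5, h6, h7⟩ := (hB.and_eventually ((hlow Λ 1 hΛ1 one_pos).and ((htl.eventually_gt_atTop 0).and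
      (eventually_ge_atTop 1)))).exists
    have hX : (0 : ℝ) < X := by exact_mod_cast h7
    have hXL : 0 < X * Real.log X := by positivity
    have h8 := h5.trans h4
    have h9 : B * (X * Real.log X) < (ρ / 2 * (δ * (2 / Real.log (16 / 9)) + (1 - δ) * Λ) - 1) * (X * Real.log X) := by
      apply mul_lt_mul_of_pos_right _ hXL
      have h10 := le_abs_self B
      have h11 : 0 ≤ ρ / 2 * (δ * (2 / Real.log (16 / 9))) := by
        have := hδ.pos
        positivity
      linarith
    have h10 : 0 < (ρ / 2 * (δ * (2 / Real.log (16 / 9)) + (1 - δ) * Λ) - 1) * (X * Real.log X) := by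
      apply mul_pos _ hXL
      have h10 := abs_nonneg B
      have h11 : 0 ≤ ρ / 2 * (δ * (2 / Real.log (16 / 9))) := by
        have := hδ.pos
        positivity
      linarith
    rw [ENNReal.ofReal_le_ofReal_iff'] at h8
    rcases h8 with h8 | h8
    · linarith
    · linarith
  · have h1 := hA.fg (g := fun _ o => φ ((max o 1 : ℕ) : ℕ∞)) (g0 := φ ⊤) (fun _ _ => hφ _) (hφ _)
    have h4 := h1.tr X hX
    have e : ∀ n, (if n % 2 = 1 then Fg (fun _ o => φ ((max o 1 : ℕ) : ℕ∞)) (φ ⊤) n else 0) =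
        if n % 2 = 1 then φ (height n) else 0 := by
      intro n
      by_cases hn : n % 2 = 1
      · rw [if_pos hn, if_pos hn]
        by_cases h : ∃ k, H k n
        · obtain ⟨k, hk⟩ := h
          rw [Fg_H hk, height_H hn hk]
        · rw [Fg_not h, height_not hn h]
      · rw [if_neg hn, if_neg hn]
    simp only [e] at h4
    rw [hset, Finset.sum_filter]
    have e2 : ∑ n ∈ Finset.Icc 1 X, (if Ep p u v n ∧ n % 2 = 1 then φ (height n) else 0) =
        ∑ n ∈ Finset.Icc 1 X, ind (Ep p u v) n * (if n % 2 = 1 then φ (height n) else 0) := by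
      apply Finset.sum_congr rfl
      intro n _
      by_cases h : Ep p u v n
      · rw [ind_pos h, one_mul]
        by_cases h5 : n % 2 = 1
        · rw [if_pos ⟨h, h5⟩, if_pos h5]
        · rw [if_neg (fun h' => h5 h'.2), if_neg h5]
      · rw [ind_neg h, zero_mul, if_neg (fun h' => h h'.1)]
    rw [e2]
    exact h4
  · intro r b x hr
    have h1 := hJ r b hr x
    have e : ρ * (δ / r * Pool.Agent.H499R2.ND.Phi x / 2) = (ρ * (δ * Phi x / r)) / 2 := by
      have : Pool.Agent.H499R2.ND.Phi x = Phi x := Pool.Agent.H499R2.ND.phi_cdf x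
      rw [this]; ring
    rw [e] at h1
    refine along_of h1 (fun n => ?_)
    rw [hcl]
    constructor
    · rintro ⟨h4, h5, h6⟩; exact ⟨h5, (level_iff r b x h4).1 h6⟩
    · rintro ⟨h5, h6⟩; exact ⟨h5.2, h5, (level_iff r b x h5.2).2 h6⟩

end Pool.Agent.Results.MP_2b866c_nt.PolynomialClasses
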