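import Mathlib
import Pool.Agent.H499R2.HL.C
import Pool.Agent.Run7.h145.QL.L2
import Pool.Agent.Run7.h145.QL.Y2

set_option autoImplicit false

/-!
The heights of odd integers under the `3x+1` map and their truncated averages, along the odd values of
quadratic polynomials in several variables.

The values (for example the odd sums of two squares) have density zero or large multiplicities; all
statements count the points of a box at which the value has the property.
-/

namespace Pool.Agent.Results.MP_2b866c_nt.QuadraticValues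

open Filter Topology Finset

/-- `C(m) = (3m+1)/2^e(m)`, `2^e(m)` the largest power of `2` dividing `3m+1` -/
def C (m : ℕ) : ℕ := (3 * m + 1) / 2 ^ padicValNat 2 (3 * m + 1)

/-- the height `h(m)`, the least `k ≥ 1` with `C^k(m) = 1`, and `⊤ = ∞` if there is none -/
noncomputable def height (m : ℕ) : ℕ∞ := sInf {k : ℕ∞ | ∃ j : ℕ, 1 ≤ j ∧ C^[j] m = 1 ∧ k = j}

/-- `min(h(m), L)`, a natural number -/
noncomputable def truncHeight (m L : ℕ) : ℕ := (min (height m) (L : ℕ∞)).toNat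

/-- among the odd positive integers, those with the property `P` have the natural density `δ` -/
def HasOddDensity (P : ℕ → Prop) (δ : ℝ) : Prop :=
  Tendsto (fun N : ℕ => 2 / (N : ℝ) * ({m : ℕ | m ≤ N ∧ Odd m ∧ P m}.ncard : ℝ)) atTop (𝓝 δ)

/-- `2 / log (16/9) * log m + x * log 2 * √(2 log m / (log (4/3))^3)` -/
noncomputable def bound (x : ℝ) (m : ℕ) : ℝ :=
  2 / Real.log (16 / 9) * Real.log m
    + x * (Real.log 2 * Real.sqrt (2 * Real.log m / Real.log (4 / 3) ^ 3))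

/-- The distribution function of the standard normal law. -/
noncomputable def Phi (x : ℝ) : ℝ :=
  ProbabilityTheory.cdf (ProbabilityTheory.gaussianReal 0 1) x

/-- The height of `m` is finite, at most `bound x m` and congruent to `b` modulo `q`. -/
def Level (q : ℕ) (b : ℤ) (x : ℝ) (m : ℕ) : Prop :=
  ∃ h : ℕ, height m = h ∧ (h : ℝ) ≤ bound x m ∧ (h : ℤ) ≡ b [ZMOD q]

/-- The value at `x` of the quadratic polynomial with quadratic part `∑ A i j x i x j`, linear part
`∑ l i x i` and constant term `c`. -/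
def Val {k : ℕ} (A : Fin k → Fin k → ℤ) (l : Fin k → ℤ) (c : ℤ) (x : Fin k → ℤ) : ℤ :=
  ∑ i, ∑ j, A i j * x i * x j + ∑ i, l i * x i + c

/-- The quadratic form `∑ A i j x i x j` has rank at least two: the symmetric matrix
`A i j + A j i` has a minor of order two that is not zero. -/
def RankTwo {k : ℕ} (A : Fin k → Fin k → ℤ) : Prop :=
  ∃ p q r s : Fin k, (A p r + A r p) * (A q s + A s q) ≠ (A p s + A s p) * (A q r + A r q)

/-- The integral points `x` of the box `a i < x i ≤ b i` with `x ∈ D` at which the polynomial has a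
positive value with `u < value ≤ v`. -/
def Points {k : ℕ} (A : Fin k → Fin k → ℤ) (l : Fin k → ℤ) (c : ℤ) (a b : Fin k → ℤ) (u v : ℤ)
    (D : Set (Fin k → ℤ)) : Set (Fin k → ℤ) :=
  {x | (∀ i, a i < x i ∧ x i ≤ b i) ∧ (u < Val A l c x ∧ Val A l c x ≤ v) ∧ 0 < Val A l c x ∧ x ∈ D}

/-- THE FREQUENCY of the property `P` among the odd values of quadratic polynomials is `f`: for every
integral quadratic form `A` of rank at least two in `k` variables, all `B, ε > 0` and `q ≥ 1` there is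
`R₀` such that for all `R ≥ R₀`, for all polynomials with quadratic part `A`, linear coefficients at most
`B R` and constant term at most `B R ^ 2`, all boxes in `[-R, R] ^ k`, all `u`, `v` and all sets `D` of
integral points periodic modulo `q`, the number of the points `x ∈ D` of the box with an odd positive
value between `u` and `v` that has the property `P` is `f` times the number of all points `x ∈ D` of the
box with an odd positive value between `u` and `v`, up to `ε R ^ k`. -/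
def Frequency (P : ℕ → Prop) (f : ℝ) : Prop := ∀ (k : ℕ) (A : Fin k → Fin k → ℤ), RankTwo A →
  ∀ (B ε : ℝ) (q : ℕ), 0 < B → 0 < ε → 1 ≤ q → ∃ R₀ : ℕ, ∀ R : ℕ, R₀ ≤ R →
  ∀ (l : Fin k → ℤ) (c : ℤ) (a b : Fin k → ℤ), (∀ i, |(l i : ℝ)| ≤ B * R) → |(c : ℝ)| ≤ B * R ^ 2 →
  (∀ i, |a i| ≤ R ∧ |b i| ≤ R) → ∀ (u v : ℤ) (D : Set (Fin k → ℤ)),
  (∀ x y : Fin k → ℤ, (∀ i, x i ≡ y i [ZMOD q]) → (x ∈ D ↔ y ∈ D)) →
  |({x ∈ Points A l c a b u v D | Odd (Val A l c x) ∧ P (Val A l c x).toNat}.ncard : ℝ) -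
    f * {x ∈ Points A l c a b u v D | Odd (Val A l c x)}.ncard| ≤ ε * R ^ k

open scoped Classical in
/-- THE AVERAGE of `F m` over the odd values `m` of quadratic polynomials is `V`: as in `Frequency`, the sum
of `F m` over the odd positive values `m` between `u` and `v` at the points `x ∈ D` of the box is `V` times
the number of these points, up to `ε R ^ k`. -/
def Average (F : ℕ → ℝ) (V : ℝ) : Prop := ∀ (k : ℕ) (A : Fin k → Fin k → ℤ), RankTwo A →
  ∀ (B ε : ℝ) (q : ℕ), 0 < B → 0 < ε → 1 ≤ q → ∃ R₀ : ℕ, ∀ R : ℕ, R₀ ≤ R →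
  ∀ (l : Fin k → ℤ) (c : ℤ) (a b : Fin k → ℤ), (∀ i, |(l i : ℝ)| ≤ B * R) → |(c : ℝ)| ≤ B * R ^ 2 →
  (∀ i, |a i| ≤ R ∧ |b i| ≤ R) → ∀ (u v : ℤ) (D : Set (Fin k → ℤ)),
  (∀ x y : Fin k → ℤ, (∀ i, x i ≡ y i [ZMOD q]) → (x ∈ D ↔ y ∈ D)) →
  |∑ x ∈ (Fintype.piFinset fun i => Ioc (a i) (b i)).filter (fun x => x ∈ Points A l c a b u v D ∧ Odd (Val A l c x)),
      F (Val A l c x).toNat - V * {x ∈ Points A l c a b u v D | Odd (Val A l c x)}.ncard| ≤ ε * R ^ k

theorem freq_of {P Q : ℕ → Prop} {f : ℝ} (h : Pool.Agent.Run7.h145.QL.QV.Fr P f) (n0 : ℕ)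
    (hPQ : ∀ n, n0 ≤ n → Odd n → (P n ↔ Q n)) : Frequency Q f :=
  Pool.Agent.Run7.h145.QL.X.odd_of h n0 hPQ

open Pool.Agent.H499R2.ND in
theorem height_eq {m h : ℕ} (hh : IsHt m h) : height m = h := by
  unfold height
  apply le_antisymm
  · exact sInf_le ⟨h, hh.1, hh.2.1, rfl⟩
  · refine le_sInf ?_
    rintro k ⟨j, hj, hj1, rfl⟩
    have : h ≤ j := by
      by_contra hlt
      exact hh.2.2 j hj (by omega) hj1
    exact_mod_cast this

open Pool.Agent.H499R2.ND in
theorem exists_isHt {m j : ℕ} (hj : 1 ≤ j) (h : C^[j] m = 1) : ∃ h, IsHt m h := by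
  classical
  have hex : ∃ k, 1 ≤ k ∧ C^[k] m = 1 := ⟨j, hj, h⟩
  refine ⟨Nat.find hex, (Nat.find_spec hex).1, (Nat.find_spec hex).2, fun k hk hlt hk1 => ?_⟩
  exact Nat.find_min hex hlt ⟨hk, hk1⟩

open Pool.Agent.H499R2.ND in
theorem height_top {m : ℕ} (hh : ¬ ∃ h, IsHt m h) : height m = ⊤ := by
  unfold height
  have : {k : ℕ∞ | ∃ j : ℕ, 1 ≤ j ∧ C^[j] m = 1 ∧ k = j} = ∅ := by
    rw [Set.eq_empty_iff_forall_notMem]
    rintro k ⟨j, hj, hj1, _⟩
    exact hh (exists_isHt hj hj1)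
  rw [this, sInf_empty]

open Pool.Agent.H499R2.ND in
theorem height_lt_top_iff {m : ℕ} : height m ≠ ⊤ ↔ ∃ h, IsHt m h := by
  constructor
  · intro h
    by_contra hcon
    exact h (height_top hcon)
  · rintro ⟨h, hh⟩
    rw [height_eq hh]
    exact ENat.natCast_ne_top h

open Pool.Agent.H499R2.ND in
theorem height_iff {m h : ℕ} : height m = h ↔ IsHt m h := by
  constructor
  · intro hm
    obtain ⟨h', hh'⟩ := height_lt_top_iff.1 (show height m ≠ ⊤ by rw [hm]; exact ENat.natCast_ne_top h)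
    have h1 := height_eq hh'
    rw [hm] at h1
    have h2 : h = h' := by exact_mod_cast h1
    rw [h2]; exact hh'
  · exact height_eq

open Pool.Agent.H499R2.ND in
theorem odd_density_of {P : ℕ → Prop} {δ : ℝ} (h : Dn (fun m => m % 2 = 1 ∧ P m) (δ / 2)) :
    HasOddDensity P δ := by
  unfold HasOddDensity
  have h1 := h.const_mul 2
  rw [mul_div_cancel₀ δ (by norm_num : (2 : ℝ) ≠ 0)] at h1
  refine h1.congr fun N => ?_
  have e : {m : ℕ | 1 ≤ m ∧ m ≤ N ∧ m % 2 = 1 ∧ P m} = {m : ℕ | m ≤ N ∧ Odd m ∧ P m} := by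
    ext m
    constructor
    · rintro ⟨g1, g2, g3, g4⟩
      exact ⟨g2, Nat.odd_iff.2 g3, g4⟩
    · rintro ⟨g2, g3, g4⟩
      exact ⟨g3.pos, g2, Nat.odd_iff.1 g3, g4⟩
  unfold cnt
  rw [e]
  ring

theorem two_log : 2 / Real.log (16 / 9) = 1 / Real.log (4 / 3) := by
  have : Real.log (16 / 9) = 2 * Real.log (4 / 3) := by
    rw [show (16 : ℝ) / 9 = (4 / 3) ^ 2 by norm_num, Real.log_pow]; push_cast; ring
  rw [this]
  have : Real.log (4 / 3) ≠ 0 := (Real.log_pos (by norm_num)).ne'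
  field_simp

theorem bound_eq (x : ℝ) (m : ℕ) : bound x m = Pool.Agent.H499R2.HL.bo x (Real.log m) := by
  unfold bound Pool.Agent.H499R2.HL.bo
  rw [two_log]

/-- finite heights with a property -/
theorem ht_trans {R : ℕ → Prop} {m : ℕ} (hm : 2 ≤ m) (ho : Odd m) :
    (∃ k, Pool.Agent.H499R2.HL.H k m ∧ R (Pool.Agent.H499R2.LT.odn k m)) ↔ ∃ h : ℕ, height m = h ∧ R h := by
  have h1 := fun h : ℕ => Pool.Agent.H499R2.HL.ht_H (x := m) (Nat.odd_iff.1 ho) (by omega) h
  constructor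
  · rintro ⟨k, hk, hR⟩
    exact ⟨_, height_iff.2 ((h1 _).2 ⟨k, hk, rfl⟩), hR⟩
  · rintro ⟨h, hh, hR⟩
    obtain ⟨k, hk, rfl⟩ := (h1 h).1 (height_iff.1 hh)
    exact ⟨k, hk, hR⟩

theorem trunc_of {m h L : ℕ} (hh : height m = h) : truncHeight m L = min h L := by
  unfold truncHeight
  rw [hh]
  rcases le_total h L with hl | hl
  · rw [min_eq_left hl, min_eq_left (by exact_mod_cast hl)]
    exact ENat.toNat_natCast _
  · rw [min_eq_right hl, min_eq_right (by exact_mod_cast hl)]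
    exact ENat.toNat_natCast _

theorem trunc_top {m L : ℕ} (hh : height m = ⊤) : truncHeight m L = L := by
  unfold truncHeight
  rw [hh, min_eq_right le_top]
  exact ENat.toNat_natCast _

theorem trunc_le (m L : ℕ) : truncHeight m L ≤ L := by
  by_cases h : height m = ⊤
  · rw [trunc_top h]
  · obtain ⟨k, hk⟩ := ENat.ne_top_iff_exists.1 h
    rw [trunc_of hk.symm]
    exact min_le_right _ _

/-- the truncated averages -/
theorem avg_main {δ c0 Λ : ℝ} (hc0 : 0 < c0) (hΛ : c0 < Λ)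
    (h1 : ∀ η : ℝ, 0 < η → Frequency (fun m => ∃ h : ℕ, height m = h ∧ |(h : ℝ) - c0 * Real.log m| ≤ η * Real.log m) δ)
    (h2 : Frequency (fun m => height m = ⊤) (1 - δ)) :
    Average (fun m => (truncHeight m ⌊Λ * Real.log m⌋₊ : ℝ) / Real.log m) (δ * c0 + (1 - δ) * Λ) := by
  have hΛ0 : 0 < Λ := hc0.trans hΛ
  refine Pool.Agent.Run7.h145.QL.X.avg_odd
    (F := fun m => (truncHeight m ⌊Λ * Real.log m⌋₊ : ℝ) / Real.log m) (H := Λ) (l1 := δ) (l2 := 1 - δ) (v1 := c0) (v2 := Λ) (fun m => ?_) (by ring) (fun η hη => ?_)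
  · have hL : 0 ≤ Real.log m := Real.log_natCast_nonneg m
    rw [abs_of_nonneg (by positivity)]
    rcases hL.eq_or_lt with h | h
    · rw [← h, div_zero]; exact hΛ0.le
    · rw [div_le_iff₀ h]
      calc ((truncHeight m ⌊Λ * Real.log m⌋₊ : ℕ) : ℝ) ≤ (⌊Λ * Real.log m⌋₊ : ℝ) := by exact_mod_cast trunc_le _ _
        _ ≤ Λ * Real.log m := Nat.floor_le (by positivity)
  · set η0 : ℝ := min η ((Λ - c0) / 2) with hη0
    have hη00 : 0 < η0 := lt_min hη (by linarith)
    have hη01 : η0 ≤ η := min_le_left _ _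
    have hη02 : η0 ≤ (Λ - c0) / 2 := min_le_right _ _
    have tl : Tendsto (fun N : ℕ => Real.log N) atTop atTop :=
      Real.tendsto_log_atTop.comp tendsto_natCast_atTop_atTop
    obtain ⟨n0, hn0⟩ := eventually_atTop.1 (tl.eventually_ge_atTop (max 1 (max (2 / (Λ - c0)) (1 / η))))
    refine ⟨fun m => ∃ h : ℕ, height m = h ∧ |(h : ℝ) - c0 * Real.log m| ≤ η0 * Real.log m, fun m => height m = ⊤,
      n0, h1 η0 hη00, h2, fun n hn hn2 => ?_, fun n hn _ h => ?_, fun n hn _ hh => ?_⟩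
    · obtain ⟨h, hh, _⟩ := hn
      beta_reduce at hn2
      rw [hh] at hn2
      exact absurd hn2 (ENat.natCast_ne_top h)
    · have g2 := hn0 n hn
      simp only [max_le_iff] at g2
      obtain ⟨g3, g4, g5⟩ := g2
      beta_reduce at h ⊢
      set L := Real.log n with hL
      have hL0 : 0 < L := by linarith
      rw [div_le_iff₀ (by linarith)] at g4
      obtain ⟨h, hh, hb⟩ := h
      obtain ⟨b1, b2⟩ := abs_le.1 hb
      have hfl := Nat.lt_floor_add_one (Λ * L)
      have c3 : η0 * L ≤ η * L := mul_le_mul_of_nonneg_right hη01 hL0.le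
      have c4 : η0 * L ≤ (Λ - c0) / 2 * L := mul_le_mul_of_nonneg_right hη02 hL0.le
      have c6 : (h : ℝ) ≤ ⌊Λ * L⌋₊ := by nlinarith
      rw [trunc_of hh, min_eq_left (by exact_mod_cast c6)]
      have e : (h : ℝ) / L - c0 = ((h : ℝ) - c0 * L) / L := by field_simp
      rw [e, abs_div, abs_of_pos hL0, div_le_iff₀ hL0]
      exact hb.trans c3
    · have g2 := hn0 n hn
      simp only [max_le_iff] at g2
      obtain ⟨g3, g4, g5⟩ := g2
      beta_reduce at hh ⊢
      set L := Real.log n with hL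
      have hL0 : 0 < L := by linarith
      rw [div_le_iff₀ hη] at g5
      have hfl := Nat.lt_floor_add_one (Λ * L)
      have hfl2 : (⌊Λ * L⌋₊ : ℝ) ≤ Λ * L := Nat.floor_le (by positivity)
      rw [trunc_top hh]
      have e : (⌊Λ * L⌋₊ : ℝ) / L - Λ = ((⌊Λ * L⌋₊ : ℝ) - Λ * L) / L := by field_simp
      rw [e, abs_div, abs_of_pos hL0, div_le_iff₀ hL0, abs_le]
      constructor <;> nlinarith

/-- THE HEIGHTS AND THEIR AVERAGE ORDER ALONG THE ODD VALUES OF QUADRATIC POLYNOMIALS.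
Let `δ > 0` be the natural density of the finite heights among the odd positive integers (`δ = 1` if and
only if all heights are finite). In the sense of `Frequency` and `Average` (odd positive values of quadratic
polynomials with quadratic part of rank at least two, at the points of boxes and of sets periodic modulo
`q`, uniformly in the lower coefficients, the box, the range of values and the periodic set):
(1) the `m` with infinite height have frequency `1 - δ`;
(2) the `m` with `h(m) ≤ 2 / log (16/9) log m + x log 2 √(2 log m / (log (4/3))^3)` and `h(m) ≡ b` modulo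
`q` have frequency `δ Φ(x) / q`, `Φ` the standard normal distribution function;
(3) for every `η > 0` the `m` with `|h(m) - 2 / log (16/9) log m| ≤ η log m` have frequency `δ`;
(4) for every `Λ > 2 / log (16/9)` the average of `min(h(m), ⌊Λ log m⌋) / log m` is
`δ 2 / log (16/9) + (1 - δ) Λ`.
(5) Let the property `P` have the frequency `f` among the odd values of quadratic polynomials. Then
 (a) for every quadratic polynomial in `k` variables with quadratic part of rank at least two that takes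
     a positive value, and which has an odd value, `P` holds at the proportion `f` of the points of the cubes
     `[-N, N] ^ k` at which the value is positive and odd;
 (b) `P (x ^ 2 + y ^ 2)` holds for the proportion `f` of the integral points with `x ^ 2 + y ^ 2 ≤ N` odd;
 (c) `P (x y)` holds for the proportion `f` of the pairs of odd `x, y ≤ N`;
 (d) if `f > 0` and `β ^ 2 ≠ 4 α γ`, every large `n` for which `n - (α x ^ 2 + β x y + γ y ^ 2)` is odd for
     some integers `x`, `y` has at least `κ n` representations `n = α x ^ 2 + β x y + γ y ^ 2 + t` with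
     positive `x`, `y` at most `√n` and odd `t` with the property `P`. -/
theorem result : ∃ δ : ℝ, 0 < δ ∧ δ ≤ 1 ∧ (δ = 1 ↔ ∀ m : ℕ, Odd m → height m ≠ ⊤) ∧
    HasOddDensity (fun m => height m ≠ ⊤) δ ∧
    Frequency (fun m => height m = ⊤) (1 - δ) ∧
    (∀ (q : ℕ) (b : ℤ) (x : ℝ), 1 ≤ q → Frequency (Level q b x) (δ * Phi x / q)) ∧
    (∀ η : ℝ, 0 < η → Frequency (fun m => ∃ h : ℕ, height m = h ∧
      |(h : ℝ) - 2 / Real.log (16 / 9) * Real.log m| ≤ η * Real.log m) δ) ∧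
    (∀ Λ : ℝ, 2 / Real.log (16 / 9) < Λ →
      Average (fun m => (truncHeight m ⌊Λ * Real.log m⌋₊ : ℝ) / Real.log m)
        (δ * (2 / Real.log (16 / 9)) + (1 - δ) * Λ)) ∧
    (∀ (P : ℕ → Prop) (f : ℝ), Frequency P f →
      (∀ (k : ℕ) (A : Fin k → Fin k → ℤ), RankTwo A → ∀ (l : Fin k → ℤ) (c : ℤ) (x₀ z : Fin k → ℤ),
        0 < ∑ i, ∑ j, A i j * x₀ i * x₀ j → Odd (Val A l c z) →
        Tendsto (fun N : ℕ => ({x : Fin k → ℤ | (∀ i, |x i| ≤ N) ∧ (0 < Val A l c x ∧ Odd (Val A l c x)) ∧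
          P (Val A l c x).toNat}.ncard : ℝ) /
          {x : Fin k → ℤ | (∀ i, |x i| ≤ N) ∧ (0 < Val A l c x ∧ Odd (Val A l c x))}.ncard) atTop (𝓝 f)) ∧
      Tendsto (fun N : ℕ => ({p : ℤ × ℤ | Odd (p.1 ^ 2 + p.2 ^ 2) ∧ p.1 ^ 2 + p.2 ^ 2 ≤ N ∧
        P (p.1 ^ 2 + p.2 ^ 2).toNat}.ncard : ℝ) /
        {p : ℤ × ℤ | Odd (p.1 ^ 2 + p.2 ^ 2) ∧ p.1 ^ 2 + p.2 ^ 2 ≤ N}.ncard) atTop (𝓝 f) ∧
      Tendsto (fun N : ℕ => ({p : ℕ × ℕ | Odd p.1 ∧ Odd p.2 ∧ p.1 ≤ N ∧ p.2 ≤ N ∧
        P (p.1 * p.2)}.ncard : ℝ) / {p : ℕ × ℕ | Odd p.1 ∧ Odd p.2 ∧ p.1 ≤ N ∧ p.2 ≤ N}.ncard) atTop (𝓝 f) ∧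
      (0 < f → ∀ α β γ : ℤ, β ^ 2 ≠ 4 * α * γ → ∃ κ : ℝ, 0 < κ ∧ ∃ n₀ : ℕ, ∀ n : ℕ, n₀ ≤ n →
        (∃ x y : ℤ, Odd (n - (α * x ^ 2 + β * x * y + γ * y ^ 2))) →
        κ * n ≤ {p : ℤ × ℤ | (0 < p.1 ∧ p.1 ^ 2 ≤ n) ∧ (0 < p.2 ∧ p.2 ^ 2 ≤ n) ∧
          ∃ t : ℕ, Odd t ∧ P t ∧ (n : ℤ) = (α * p.1 ^ 2 + β * p.1 * p.2 + γ * p.2 ^ 2) + t}.ncard)) := by
  obtain ⟨δ, h0, h1, h2, h3, h4, h5⟩ := Pool.Agent.Run7.h145.QL.rel_laws Pool.Agent.Run7.h145.QL.QV
  have hBas : ∀ m : ℕ, Odd m → (Pool.Agent.H499R2.ND.Bas m ↔ height m ≠ ⊤) := fun m hm => by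
    rw [height_lt_top_iff]
    exact Pool.Agent.H499R2.ND.ht_iff hm
  have hfin : ∀ m : ℕ, Odd m → ((∃ k, Pool.Agent.H499R2.HL.H k m) ↔ height m ≠ ⊤) := fun m hm => by
    rw [← hBas m hm]
    exact (Pool.Agent.Run7.h145.QL.hit_iff m).symm
  have hinf : Frequency (fun m => height m = ⊤) (1 - δ) := by
    refine freq_of (Pool.Agent.Run7.h145.QL.QV.not h4 (fun _ => Iff.rfl)) 0 (fun n _ ho => ?_)
    rw [hfin n ho, not_not]
  have hll : ∀ η : ℝ, 0 < η → Frequency (fun m => ∃ h : ℕ, height m = h ∧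
      |(h : ℝ) - 2 / Real.log (16 / 9) * Real.log m| ≤ η * Real.log m) δ := by
    intro η hη
    have hrr := Pool.Agent.H499R2.HL.rr_pos
    have hl2 : 0 < Real.log 2 := Real.log_pos (by norm_num)
    have h6 := Pool.Agent.Run7.h145.QL.lln Pool.Agent.Run7.h145.QL.QV
      (f := fun k n => (Pool.Agent.H499R2.LT.odn k n : ℝ))
      (α := 1 / Real.log (4 / 3))
      (σ := Real.log 2 * Pool.Agent.H499R2.HL.rr) (δ := δ) (η := η) (by positivity) h0.le h1 hη (fun x => by
        have h7 := ((h5 1 0 0 le_rfl).2.2 x).2.2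
        have e1 : δ / ((1 : ℕ) : ℝ) * Pool.Agent.H499R2.ND.Phi x = δ * Pool.Agent.H499R2.ND.Phi x := by simp
        rw [e1] at h7
        refine Pool.Agent.Run7.h145.QL.QV.congr 0 (fun n _ => exists_congr fun k => and_congr_right fun _ => ?_) h7
        rw [← Pool.Agent.Run7.h145.QL.bo_thr]
        simp [Int.modEq_one]) h4
    refine freq_of h6 2 (fun n hn ho => ?_)
    rw [two_log]
    exact ht_trans (R := fun h => |(h : ℝ) - 1 / Real.log (4 / 3) * Real.log n| ≤ η * Real.log n) hn ho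
  refine ⟨δ, h0, h1, ?_, ?_, hinf, fun q b x hq => ?_, hll, fun Λ hΛ => ?_, fun P f hP => ⟨?_, ?_, ?_, ?_⟩⟩
  · rw [h2]
    refine Iff.trans Pool.Agent.H499R2.ND.bas_all_iff ?_
    exact forall_congr' fun m => forall_congr' fun _ => height_lt_top_iff.symm
  · apply odd_density_of
    have h6 : Pool.Agent.H499R2.ND.Dn (fun m => m % 2 = 1 ∧ Pool.Agent.H499R2.ND.Bas m) (δ / 2) := by
      have := Pool.Agent.H499R2.ND.inv_prog Pool.Agent.H499R2.ND.Bas_inv h3 (q := 2) (by norm_num) 1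
      exact_mod_cast this
    exact Pool.Agent.H499R2.LT.Dn_iff (fun n _ => and_congr_right fun h => hBas n (Nat.odd_iff.2 h)) h6
  · have h6 := ((h5 q 0 b hq).2.2 x).2.2
    have e : δ / (q : ℝ) * Pool.Agent.H499R2.ND.Phi x = δ * Phi x / q := by
      unfold Phi
      rw [← Pool.Agent.H499R2.ND.phi_cdf]
      ring
    rw [e] at h6
    refine freq_of h6 2 (fun n hn ho => ?_)
    rw [← bound_eq]
    exact ht_trans (R := fun h => (h : ℝ) ≤ bound x n ∧ (h : ℤ) ≡ b [ZMOD q]) hn ho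
  · exact avg_main (div_pos (by norm_num) (Real.log_pos (by norm_num))) hΛ hll hinf
  · intro k A hA l c x₀ z hx hz
    exact Pool.Agent.Run7.h145.QL.X.cubes_odd hP hA l c hx hz
  · exact Pool.Agent.Run7.h145.QL.X.two_squares_odd hP
  · exact Pool.Agent.Run7.h145.QL.X.products_odd hP
  · intro hf α β γ hd
    exact Pool.Agent.Run7.h145.QL.X.represent_odd hf hP hd

end Pool.Agent.Results.MP_2b866c_nt.QuadraticValues
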